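import Pool.Agent.AGeo.Bridge

set_option autoImplicit false

namespace AutGeo

/-- The analytic half of part A. -/
theorem analysis (p : ℤ × ℤ → ℝ) (hp : PHyp p) (hQ : PropQ p) : False :=
  Pool.Agent.AGeo.analysis_false p hp hQ

end AutGeo
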