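import Pool.Agent.AutGeo.A.SstarRot

set_option autoImplicit false

namespace AutGeo

private lemma rotSum_one (l : ℝ × ℝ) : rotR 1 l = (-l.2, l.1) := by
  have h : (1 : ZMod 4) ≠ 0 := by decide
  unfold rotR
  rw [if_neg h, if_pos rfl]

/-- a rotation invariant finite family of functionals gives a multiple of the euclidean square. `rotR 1` is a bijection of `Λ`
(injective map of a finite set to itself), so `∑ l.1^2 = ∑ l.2^2` and `∑ l.1 l.2 = ∑ (-l.2) l.1`; `S = ∑ l.1^2`. -/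
theorem rot_sum (Λ : Finset (ℝ × ℝ)) (hrot : ∀ l ∈ Λ, rotR 1 l ∈ Λ) (h0 : ∀ l ∈ Λ, l ≠ 0) (hne : Λ.Nonempty) :
    ∃ S : ℝ, 0 < S ∧ ∀ x : ℝ × ℝ, ∑ l ∈ Λ, (dot l x) ^ 2 = S * (x.1 ^ 2 + x.2 ^ 2) := by
  classical
  have hinj : Set.InjOn (rotR 1) (Λ : Set (ℝ × ℝ)) := by
    intro a _ b _ hab
    rw [rotSum_one, rotSum_one] at hab
    have h1 := congrArg Prod.fst hab
    have h2 := congrArg Prod.snd hab
    simp only at h1 h2
    exact Prod.ext h2 (neg_injective h1)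
  have himg : Λ.image (rotR 1) = Λ := by
    apply Finset.eq_of_subset_of_card_le
    · intro y hy
      obtain ⟨l, hl, rfl⟩ := Finset.mem_image.mp hy
      exact hrot l hl
    · rw [Finset.card_image_of_injOn hinj]
  have hsum : ∀ f : ℝ × ℝ → ℝ, ∑ l ∈ Λ, f (rotR 1 l) = ∑ l ∈ Λ, f l := by
    intro f
    conv_rhs => rw [← himg]
    rw [Finset.sum_image hinj]
  have h1 : ∑ l ∈ Λ, l.2 ^ 2 = ∑ l ∈ Λ, l.1 ^ 2 := by
    have := hsum (fun l => l.1 ^ 2)
    simp only [rotSum_one] at this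
    simpa using this
  have h2 : ∑ l ∈ Λ, l.1 * l.2 = 0 := by
    have := hsum (fun l => l.1 * l.2)
    simp only [rotSum_one] at this
    have h3 : ∑ l ∈ Λ, -l.2 * l.1 = - ∑ l ∈ Λ, l.1 * l.2 := by
      rw [← Finset.sum_neg_distrib]
      exact Finset.sum_congr rfl fun l _ => by ring
    linarith
  refine ⟨∑ l ∈ Λ, l.1 ^ 2, ?_, ?_⟩
  · have hnn : 0 ≤ ∑ l ∈ Λ, l.1 ^ 2 := Finset.sum_nonneg fun l _ => sq_nonneg _
    rcases hnn.lt_or_eq with h | h
    · exact h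
    · exfalso
      obtain ⟨l, hl⟩ := hne
      have ha := (Finset.sum_eq_zero_iff_of_nonneg (fun l _ => sq_nonneg l.1)).mp h.symm l hl
      have hb := (Finset.sum_eq_zero_iff_of_nonneg (fun l _ => sq_nonneg l.2)).mp (h1.trans h.symm) l hl
      exact h0 l hl (Prod.ext (by simpa using ha) (by simpa using hb))
  · intro x
    have h4 : ∀ l : ℝ × ℝ, (dot l x) ^ 2 = x.1 ^ 2 * l.1 ^ 2 + x.2 ^ 2 * l.2 ^ 2 +
        2 * x.1 * x.2 * (l.1 * l.2) := by
      intro l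
      simp only [dot]
      ring
    rw [Finset.sum_congr rfl fun l _ => h4 l, Finset.sum_add_distrib, Finset.sum_add_distrib,
      ← Finset.mul_sum, ← Finset.mul_sum, ← Finset.mul_sum, h1, h2]
    ring

end AutGeo
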