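import Pool.Agent.AutGeo.A.Fiber
import Pool.Agent.AutGeo.A.RotSum

set_option autoImplicit false

namespace AutGeo

/-- A6, the averaging argument: there is no finite nonempty set of states closed under the transitions.
Proof: `τ := N (3,0) = N (2,2)`. TURN: `(c,e) ∈ R → (c,-e) ∈ R` (take any `l ∈ Sstar` with `dot l (TR' e) = c` by `two_functionals`, `a = 0`, `TR (-e) = TR' e`).
So `C := {c | (c,1) ∈ R} = {c | (c,-1) ∈ R}`, finite nonempty. For `l ∈ Sstar N` with `dot l (TR e) ∈ C` for some `e`, all values `dot l (rotR a (TR e'))`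
are in `C` or have absolute value `τ` (they are `≤ τ` in absolute value; if `< τ` the transition applies).
`Λ := {μ ∈ Sstar N | ∃ a e, dot μ (rotR a (TR e)) ∈ C}` is finite (two_functionals), invariant under rotation (`dot (rotR a l) (rotR a x) = dot l x`, `Sstar` is rotation invariant),
nonempty, and for `μ ∈ Λ` all values `dot μ (rotR b (TR e'))` are in `C` or `= ±τ`.
For `x = TR e`: `{μ ∈ Λ | |dot μ x| < τ} = {μ ∈ Sstar N | dot μ x ∈ C}`, and every `c ∈ C` is the value of exactly two of them. So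
`∑_{μ∈Λ} (dot μ x)^2 = 2 ∑_{c∈C} c^2 + (|Λ| - 2|C|) τ^2` for both `x = (3,0)` and `x = (2,2)`.
But by the rotation invariance of `Λ`: `∑ μ₁² = ∑ μ₂²` and `∑ μ₁ μ₂ = 0`, so the sums are `9 S` and `8 S`, `S = ∑ μ₁² > 0` (as `2S = ∑ (μ₁²+μ₂²) > 0`). -/
theorem no_finite_closed (N : ℝ × ℝ → ℝ) (hN : IsNorm N) (R : Set (ℝ × ℤˣ)) (hfin : R.Finite)
    (hne : R.Nonempty) (hlt : ∀ x ∈ R, |x.1| < N (3, 0))
    (hcl : ∀ x ∈ R, ∀ y, StStep N x y → y ∈ R) : False := by
  classical
  have hTRneg : ∀ e : ℤˣ, TR (-e) = TR' e := by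
    intro e
    rcases Int.units_eq_one_or e with rfl | rfl
    · simp [TR, TR']
    · simp [TR, TR']
  have hTRne : ∀ e : ℤˣ, TR e ≠ 0 := by
    intro e h
    have h1 := (hN.TR e).1
    rw [h, hN.zero] at h1
    have := hN.tau_pos
    linarith
  have hturn : ∀ c e, (c, e) ∈ R → (c, -e) ∈ R := by
    intro c e hc
    have hlt' : |c| < N (TR' e) := by rw [(hN.TR e).2]; exact hlt _ hc
    have hne' : TR' e ≠ 0 := by rw [← hTRneg]; exact hTRne _
    obtain ⟨l₁, l₂, -, hl⟩ := two_functionals N hN (TR' e) hne' c hlt'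
    have h1 : l₁ ∈ {l | l ∈ Sstar N ∧ dot l (TR' e) = c} := by rw [hl]; simp
    refine hcl _ hc _ ⟨(hlt (c, e) hc :), l₁, h1.1, 0, h1.2, ?_⟩
    have h2 : rotR 0 (TR (-e)) = TR' e := by simp [rotR, hTRneg]
    simp only [h2]
    exact h1.2
  set C : Finset ℝ := hfin.toFinset.image Prod.fst with hCdef
  have hC : ∀ c, c ∈ C ↔ ∀ e : ℤˣ, (c, e) ∈ R := by
    intro c
    constructor
    · intro h e
      obtain ⟨⟨c', e'⟩, h1, h2⟩ := Finset.mem_image.1 h
      simp only at h2
      subst h2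
      have h3 : (c', e') ∈ R := by simpa using h1
      by_cases he : e = e'
      · rw [he]; exact h3
      · have : e = -e' := by
          rcases Int.units_eq_one_or e with rfl | rfl <;>
            rcases Int.units_eq_one_or e' with rfl | rfl <;> simp_all
        rw [this]
        exact hturn _ _ h3
    · intro h
      exact Finset.mem_image.2 ⟨(c, 1), by simpa using h 1, rfl⟩
  have hClt : ∀ c ∈ C, |c| < N (3, 0) := fun c hc => hlt _ ((hC c).1 hc 1)
  have hrr : ∀ (a b : ZMod 4) (x : ℝ × ℝ), rotR (-a) (rotR b x) = rotR (b - a) x := by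
    intro a b x
    rw [← rotR_rotR]
    congr 1
    ring
  have hclo : ∀ μ ∈ Sstar N, ∀ a e, dot μ (rotR a (TR e)) ∈ C → ∀ b e',
      |dot μ (rotR b (TR e'))| < N (3, 0) → dot μ (rotR b (TR e')) ∈ C := by
    intro μ hμ a e h b e' hb
    rw [hC]
    have key : ∀ f : ℤˣ, (dot μ (rotR b (TR e')), e') ∈ R := by
      intro f
      refine hcl _ ((hC _).1 h (-e)) _ ⟨hb, rotR (-a) μ, Sstar_rot hN hμ _, b - a, ?_, ?_⟩
      · have h1 : TR' (-e) = rotR (-a) (rotR a (TR e)) := by
          rw [hrr, sub_self, ← hTRneg, neg_neg]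
          simp [rotR]
        simp only [h1, dot_rotR]
      · simp only
        rw [← hrr a b, dot_rotR]
    have h2 := key 1
    intro f
    by_cases he : f = e'
    · rw [he]; exact h2
    · have : f = -e' := by
        rcases Int.units_eq_one_or f with rfl | rfl <;>
          rcases Int.units_eq_one_or e' with rfl | rfl <;> simp_all
      rw [this]
      exact hturn _ _ h2
  have hfib : ∀ p : ZMod 4 × ℤˣ, ∃ Λ : Finset (ℝ × ℝ),
      (∀ l, l ∈ Λ ↔ l ∈ Sstar N ∧ dot l (rotR p.1 (TR p.2)) ∈ C) ∧ Λ.card = 2 * C.card ∧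
      ∑ l ∈ Λ, (dot l (rotR p.1 (TR p.2))) ^ 2 = 2 * ∑ c ∈ C, c ^ 2 := by
    intro p
    have h1 : N (rotR p.1 (TR p.2)) = N (3, 0) := by rw [hN.rotR, (hN.TR _).1]
    refine fiber_sum N hN _ ?_ C ?_
    · intro h
      rw [h, hN.zero] at h1
      have := hN.tau_pos
      linarith
    · rw [h1]; exact hClt
  choose Lf hL1 hL2 hL3 using hfib
  set Lam : Finset (ℝ × ℝ) := Finset.univ.biUnion Lf with hLam
  have hmem : ∀ l, l ∈ Lam ↔ l ∈ Sstar N ∧ ∃ a e, dot l (rotR a (TR e)) ∈ C := by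
    intro l
    simp only [hLam, Finset.mem_biUnion, Finset.mem_univ, true_and, hL1, Prod.exists]
    constructor
    · rintro ⟨a, e, h1, h2⟩
      exact ⟨h1, a, e, h2⟩
    · rintro ⟨h1, a, e, h2⟩
      exact ⟨a, e, h1, h2⟩
  have hCne : C.Nonempty := by
    obtain ⟨x, hx⟩ := hne
    exact ⟨x.1, Finset.mem_image.2 ⟨x, by simpa using hx, rfl⟩⟩
  have hsum : ∀ e : ℤˣ, ∑ l ∈ Lam, (dot l (TR e)) ^ 2 =
      2 * ∑ c ∈ C, c ^ 2 + (Lam.card - 2 * C.card) * N (3, 0) ^ 2 := by
    intro e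
    have hsub : Lf (0, e) ⊆ Lam := Finset.subset_biUnion_of_mem Lf (Finset.mem_univ _)
    have h0 : rotR 0 (TR e) = TR e := by simp [rotR]
    rw [← Finset.sum_sdiff hsub]
    have h1 : ∑ l ∈ Lf (0, e), (dot l (TR e)) ^ 2 = 2 * ∑ c ∈ C, c ^ 2 := by
      have := hL3 (0, e)
      simp only [h0] at this
      exact this
    have h2 : ∑ l ∈ Lam \ Lf (0, e), (dot l (TR e)) ^ 2 =
        ∑ l ∈ Lam \ Lf (0, e), N (3, 0) ^ 2 := by
      refine Finset.sum_congr rfl fun l hl => ?_
      rw [Finset.mem_sdiff, hmem, hL1] at hl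
      simp only [h0] at hl
      obtain ⟨⟨hS, a, e', hc⟩, hnot⟩ := hl
      have h3 : |dot l (TR e)| ≤ N (3, 0) := by
        have := abs_dot_le hN hS.1 (TR e)
        rwa [(hN.TR e).1] at this
      have h4 : ¬ |dot l (TR e)| < N (3, 0) := by
        intro h5
        have h6 := hclo l hS a e' hc 0 e (by rw [h0]; exact h5)
        rw [h0] at h6
        exact hnot ⟨hS, h6⟩
      have h5 : |dot l (TR e)| = N (3, 0) := le_antisymm h3 (not_lt.1 h4)
      rw [← h5, sq_abs]
    rw [h1, h2, Finset.sum_const, nsmul_eq_mul, Finset.card_sdiff_of_subset hsub, hL2,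
      Nat.cast_sub (by rw [← hL2 (0, e)]; exact Finset.card_le_card hsub)]
    push_cast
    ring
  have hLne : Lam.Nonempty := by
    have h1 : (Lf (0, 1)).Nonempty := by
      rw [← Finset.card_pos, hL2]
      have := hCne.card_pos
      omega
    exact h1.mono (Finset.subset_biUnion_of_mem Lf (Finset.mem_univ _))
  obtain ⟨S, hS, hSum⟩ := rot_sum Lam (by
      intro l hl
      rw [hmem] at hl ⊢
      obtain ⟨h1, a, e, h2⟩ := hl
      refine ⟨Sstar_rot hN h1 1, 1 + a, e, ?_⟩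
      rw [rotR_rotR, dot_rotR]
      exact h2)
    (by
      intro l hl
      rw [hmem] at hl
      exact Sstar_ne_zero hN hl.1) hLne
  have e1 := hSum (TR 1)
  have e2 := hSum (TR (-1))
  rw [hsum] at e1 e2
  simp only [TR] at e1 e2
  norm_num at e1 e2
  linarith

end AutGeo
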