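import Pool.Agent.AutGeo.A.SstarRot

set_option autoImplicit false

namespace AutGeo

/-- scaling of the differentiability at the start plane: `N (R V₀ + h (3,0)) = R N (V₀ + (h/R) (3,0)) ≤ dot l₀ (R V₀ + h (3,0)) + ε |h|`, `ε = δ / (|B| + 1)`, `R ≥ |B| / h0`. -/
theorem scaled_start (N : ℝ × ℝ → ℝ) (hN : IsNorm N) (V0 l0 : ℝ × ℝ)
    (hd : ∀ ε : ℝ, 0 < ε → ∃ h0 : ℝ, 0 < h0 ∧ ∀ h : ℝ, |h| ≤ h0 →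
        N (V0 + h • ((3, 0) : ℝ × ℝ)) ≤ dot l0 (V0 + h • ((3, 0) : ℝ × ℝ)) + ε * |h|)
    (B δ : ℝ) (hδ : 0 < δ) :
    ∃ R : ℝ, 0 < R ∧ ∀ h : ℝ, |h| ≤ B →
      N (R • V0 + h • ((3, 0) : ℝ × ℝ)) ≤ dot l0 (R • V0 + h • ((3, 0) : ℝ × ℝ)) + δ := by
  sorry

end AutGeo
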