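import Pool.Agent.AutGeo.A.SstarRot

set_option autoImplicit false

namespace AutGeo

open Filter Topology

private lemma N_y (N : ℝ × ℝ → ℝ) (hN : IsNorm N) : N (0, 3) = N (3, 0) := by
  have h := hN.rot (3, 0)
  have h1 : rotR 1 ((3, 0) : ℝ × ℝ) = (0, 3) := by
    have h0 : ¬ ((1 : ZMod 4) = 0) := by decide
    simp [rotR, h0]
  rw [h1] at h
  exact h

private lemma N_pp (N : ℝ × ℝ → ℝ) (hN : IsNorm N) : N (3, 3) = 3 / 2 * N (3, 0) := by
  have h := hN.smul (3 / 2) (2, 2)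
  have h1 : ((3 / 2 : ℝ) • ((2, 2) : ℝ × ℝ)) = (3, 3) := by
    ext <;> simp <;> norm_num
  rw [h1, ← hN.uw, abs_of_pos (by norm_num)] at h
  exact h

private lemma N_mp (N : ℝ × ℝ → ℝ) (hN : IsNorm N) : N (-3, 3) = 3 / 2 * N (3, 0) := by
  have h := hN.rot (3, 3)
  have h1 : rotR 1 ((3, 3) : ℝ × ℝ) = (-3, 3) := by
    have h0 : ¬ ((1 : ZMod 4) = 0) := by decide
    simp [rotR, h0]
  rw [h1, N_pp N hN] at h
  exact h

private lemma f_conv (N : ℝ × ℝ → ℝ) (hN : IsNorm N) :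
    ConvexOn ℝ Set.univ (fun x : ℝ => N ((3 * x, 3) : ℝ × ℝ)) := by
  refine ⟨convex_univ, fun x _ y _ a b ha hb hab => ?_⟩
  have h1 : ((3 * (a • x + b • y), 3) : ℝ × ℝ) = a • (3 * x, 3) + b • (3 * y, 3) := by
    ext
    · simp only [smul_eq_mul, Prod.fst_add, Prod.smul_fst]
      ring
    · simp only [Prod.snd_add, Prod.smul_snd, smul_eq_mul]
      linear_combination (-3 : ℝ) * hab
  show N ((3 * (a • x + b • y), 3) : ℝ × ℝ) ≤ a • N (3 * x, 3) + b • N (3 * y, 3)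
  rw [h1]
  refine (hN.add _ _).trans ?_
  rw [hN.smul, hN.smul, abs_of_nonneg ha, abs_of_nonneg hb, smul_eq_mul, smul_eq_mul]

private lemma f_lip (N : ℝ × ℝ → ℝ) (hN : IsNorm N) :
    LipschitzWith (Real.toNNReal (N (3, 0))) (fun x : ℝ => N ((3 * x, 3) : ℝ × ℝ)) := by
  have key : ∀ x y : ℝ, N ((3 * x, 3) : ℝ × ℝ) ≤ N (3 * y, 3) + N (3, 0) * |x - y| := by
    intro x y
    have h1 : ((3 * x, 3) : ℝ × ℝ) = (3 * y, 3) + (x - y) • (3, 0) := by
      ext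
      · simp only [Prod.fst_add, Prod.smul_fst, smul_eq_mul]
        ring
      · simp only [Prod.snd_add, Prod.smul_snd, smul_eq_mul]
        ring
    rw [h1]
    refine (hN.add _ _).trans ?_
    rw [hN.smul, mul_comm |x - y|]
  refine LipschitzWith.of_le_add_mul _ fun x y => ?_
  rw [Real.coe_toNNReal _ hN.tau_pos.le, Real.dist_eq]
  exact key x y

/-- A7. Start plane. Proof: `τ = N (3,0)`. `f x := N ((0,3) + x • (3,0))` is convex and Lipschitz; `f 0 = τ` (rotation), `f 1 = N (3,3) = 3/2 τ`, `f (-1) = N (-3,3) = 3/2 τ` (`(3,3) = (3/2)(2,2)`, `(-3,3) = rotR 1 (3,3)`).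
A Lipschitz function is differentiable almost everywhere, so it is differentiable at some `x₀ ∈ (0,1/3)`; `c := f' x₀`.
Convexity: `c ≥ (f 0 - f (-1)) / 1 = -τ/2`, `f x₀ ≥ τ - τ x₀/2`, `c ≤ (f 1 - f x₀)/(1 - x₀) < τ`.
`V := (0,3) + x₀ • (3,0)`, `l` the functional with `dot l V = N V = f x₀`, `dot l (3,0) = c`. `l ≤ N`: for `y > 0`: `N (y V + x (3,0)) = y f (x₀ + x/y) ≥ y (f x₀ + c x/y)` (tangent line of a convex function);
for `y ≤ 0`: `N (y V + x (3,0)) ≥ |x| τ - |y| N V ≥ c x + y N V`. The last property is differentiability of `f` at `x₀`. -/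
theorem start_plane (N : ℝ × ℝ → ℝ) (hN : IsNorm N) :
    ∃ (c : ℝ) (V l : ℝ × ℝ), |c| < N (3, 0) ∧ (∀ x, dot l x ≤ N x) ∧ dot l V = N V ∧ dot l (3, 0) = c ∧
      ∀ ε : ℝ, 0 < ε → ∃ h0 : ℝ, 0 < h0 ∧ ∀ h : ℝ, |h| ≤ h0 →
        N (V + h • ((3, 0) : ℝ × ℝ)) ≤ dot l (V + h • ((3, 0) : ℝ × ℝ)) + ε * |h| := by
  obtain ⟨f, hf⟩ : ∃ f : ℝ → ℝ, f = fun x : ℝ => N ((3 * x, 3) : ℝ × ℝ) := ⟨_, rfl⟩
  have hfx : ∀ x : ℝ, f x = N ((3 * x, 3) : ℝ × ℝ) := fun x => by rw [hf]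
  have hconv : ConvexOn ℝ Set.univ f := by
    rw [hf]
    exact f_conv N hN
  have hlip : LipschitzWith (Real.toNNReal (N (3, 0))) f := by
    rw [hf]
    exact f_lip N hN
  have hτ := hN.tau_pos
  obtain ⟨τ, hτe⟩ : ∃ τ : ℝ, τ = N (3, 0) := ⟨_, rfl⟩
  rw [← hτe] at hτ
  have f0 : f 0 = τ := by
    rw [hfx, hτe, ← N_y N hN]
    norm_num
  have f1 : f 1 = 3 / 2 * τ := by
    rw [hfx, hτe, ← N_pp N hN]
    norm_num
  have fm : f (-1) = 3 / 2 * τ := by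
    rw [hfx, hτe, ← N_mp N hN]
    norm_num
  obtain ⟨x₀, hx0, hx1, hd⟩ : ∃ x₀ : ℝ, 0 < x₀ ∧ x₀ < 1 / 3 ∧ DifferentiableAt ℝ f x₀ := by
    have hae := hlip.ae_differentiableAt_real
    have hne : (MeasureTheory.volume : MeasureTheory.Measure ℝ) (Set.Ioo (0 : ℝ) (1 / 3)) ≠ 0 := by
      rw [Real.volume_Ioo]
      simp
    have h3 : ∃ x ∈ Set.Ioo (0 : ℝ) (1 / 3), DifferentiableAt ℝ f x := by
      by_contra hcon
      push Not at hcon
      apply hne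
      refine MeasureTheory.measure_mono_null (fun x hx => ?_) (MeasureTheory.ae_iff.mp hae)
      exact hcon x hx
    obtain ⟨x, hx, hdx⟩ := h3
    exact ⟨x, hx.1, hx.2, hdx⟩
  have hder : HasDerivAt f (deriv f x₀) x₀ := hd.hasDerivAt
  obtain ⟨c, hc⟩ : ∃ c : ℝ, c = deriv f x₀ := ⟨_, rfl⟩
  rw [← hc] at hder
  have tan : ∀ y : ℝ, f x₀ + c * (y - x₀) ≤ f y := by
    intro y
    rcases lt_trichotomy x₀ y with h | h | h
    · have h1 := hconv.le_slope_of_hasDerivAt (Set.mem_univ x₀) (Set.mem_univ y) h hder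
      rw [slope_def_field, le_div_iff₀ (by linarith)] at h1
      linarith
    · rw [← h]
      simp
    · have h1 := hconv.slope_le_of_hasDerivAt (Set.mem_univ y) (Set.mem_univ x₀) h hder
      rw [slope_def_field, div_le_iff₀ (by linarith)] at h1
      nlinarith
  have hfx0 : τ - τ * x₀ / 2 ≤ f x₀ := by
    have h1 : f ((x₀ / (1 + x₀)) • (-1 : ℝ) + (1 / (1 + x₀)) • x₀) ≤
        (x₀ / (1 + x₀)) • f (-1) + (1 / (1 + x₀)) • f x₀ :=
      hconv.2 (Set.mem_univ _) (Set.mem_univ _) (by positivity) (by positivity)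
        (by field_simp; ring)
    have h2 : (x₀ / (1 + x₀)) • (-1 : ℝ) + (1 / (1 + x₀)) • x₀ = 0 := by
      simp only [smul_eq_mul]
      field_simp
      ring
    rw [h2, f0, fm] at h1
    simp only [smul_eq_mul] at h1
    have h3 : x₀ / (1 + x₀) * (3 / 2 * τ) + 1 / (1 + x₀) * f x₀ =
        (x₀ * (3 / 2 * τ) + f x₀) / (1 + x₀) := by
      field_simp
    rw [h3, le_div_iff₀ (by linarith)] at h1
    nlinarith
  have hcup : c < τ := by
    have h1 := tan 1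
    rw [f1] at h1
    have h2 : c * (1 - x₀) ≤ τ * (1 + x₀) / 2 := by nlinarith
    have h3 : τ * (1 + x₀) / 2 < τ * (1 - x₀) := by nlinarith
    nlinarith
  have hclow : -τ < c := by
    have h1 := tan (-1)
    rw [fm] at h1
    have h2 : -(τ * (1 + x₀)) / 2 ≤ c * (1 + x₀) := by nlinarith
    nlinarith
  have hcabs : |c| < τ := abs_lt.mpr ⟨hclow, hcup⟩
  have hV : N ((3 * x₀, 3) : ℝ × ℝ) = f x₀ := (hfx x₀).symm
  have hl30 : dot ((c / 3, (f x₀ - x₀ * c) / 3) : ℝ × ℝ) (3, 0) = c := by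
    simp only [dot]
    ring
  have hlV : dot ((c / 3, (f x₀ - x₀ * c) / 3) : ℝ × ℝ) (3 * x₀, 3) = f x₀ := by
    simp only [dot]
    ring
  refine ⟨c, (3 * x₀, 3), (c / 3, (f x₀ - x₀ * c) / 3), by rw [← hτe]; exact hcabs, ?_,
    by rw [hlV, hV], hl30, ?_⟩
  · intro x
    have hdec : x = (x.2 / 3) • ((3 * x₀, 3) : ℝ × ℝ) +
        (x.1 / 3 - x.2 / 3 * x₀) • ((3, 0) : ℝ × ℝ) := by
      ext
      · simp only [Prod.fst_add, Prod.smul_fst, smul_eq_mul]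
        ring
      · simp only [Prod.snd_add, Prod.smul_snd, smul_eq_mul]
        ring
    obtain ⟨y, hy⟩ : ∃ y : ℝ, y = x.2 / 3 := ⟨_, rfl⟩
    obtain ⟨z, hz⟩ : ∃ z : ℝ, z = x.1 / 3 - x.2 / 3 * x₀ := ⟨_, rfl⟩
    rw [← hz, ← hy] at hdec
    rw [hdec, dot_add, dot_smul, dot_smul, hl30, hlV]
    rcases lt_or_ge 0 y with hpos | hneg
    · have h1 : y • ((3 * x₀, 3) : ℝ × ℝ) + z • ((3, 0) : ℝ × ℝ) =
          y • ((3 * (x₀ + z / y), 3) : ℝ × ℝ) := by
        ext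
        · simp only [Prod.fst_add, Prod.smul_fst, smul_eq_mul]
          field_simp
        · simp only [Prod.snd_add, Prod.smul_snd, smul_eq_mul]
          ring
      rw [h1, hN.smul, abs_of_pos hpos, ← hfx]
      have h2 := tan (x₀ + z / y)
      have h3 : y * (f x₀ + c * (x₀ + z / y - x₀)) = y * f x₀ + z * c := by
        field_simp
        ring
      rw [← h3]
      exact mul_le_mul_of_nonneg_left h2 hpos.le
    · have h1 : N (z • ((3, 0) : ℝ × ℝ)) ≤ N (y • ((3 * x₀, 3) : ℝ × ℝ) + z • ((3, 0) : ℝ × ℝ)) +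
          N (-(y • ((3 * x₀, 3) : ℝ × ℝ))) := by
        have h2 := hN.add (y • ((3 * x₀, 3) : ℝ × ℝ) + z • ((3, 0) : ℝ × ℝ))
          (-(y • ((3 * x₀, 3) : ℝ × ℝ)))
        have h3 : y • ((3 * x₀, 3) : ℝ × ℝ) + z • ((3, 0) : ℝ × ℝ) +
            -(y • ((3 * x₀, 3) : ℝ × ℝ)) = z • ((3, 0) : ℝ × ℝ) := by abel
        rw [h3] at h2
        exact h2
      rw [hN.neg, hN.smul, hN.smul, hV, ← hτe, abs_of_nonpos hneg] at h1
      have h4 : z * c ≤ |z| * τ := by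
        calc z * c ≤ |z * c| := le_abs_self _
          _ = |z| * |c| := abs_mul z c
          _ ≤ |z| * τ := mul_le_mul_of_nonneg_left hcabs.le (abs_nonneg z)
      linarith
  · intro ε hε
    have h1 := (hasDerivAt_iff_isLittleO_nhds_zero.mp hder).def hε
    rw [Metric.eventually_nhds_iff] at h1
    obtain ⟨r, hr, h2⟩ := h1
    refine ⟨r / 2, by linarith, fun h hh => ?_⟩
    have h3 := h2 (y := h) (by rw [Real.dist_eq, sub_zero]; linarith)
    rw [Real.norm_eq_abs, Real.norm_eq_abs] at h3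
    have h4 : ((3 * x₀, 3) : ℝ × ℝ) + h • ((3, 0) : ℝ × ℝ) = (3 * (x₀ + h), 3) := by
      ext
      · simp only [Prod.fst_add, Prod.smul_fst, smul_eq_mul]
        ring
      · simp only [Prod.snd_add, Prod.smul_snd, smul_eq_mul]
        ring
    have h5 : dot ((c / 3, (f x₀ - x₀ * c) / 3) : ℝ × ℝ)
        ((3 * x₀, 3) + h • ((3, 0) : ℝ × ℝ)) = f x₀ + h * c := by
      rw [dot_add, dot_smul, hl30, hlV]
    rw [h5, h4, ← hfx]
    have h6 := le_abs_self (f (x₀ + h) - f x₀ - h • c)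
    rw [smul_eq_mul] at h6 h3
    linarith

end AutGeo
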