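import Pool.Agent.AutGeo.A.Rigid
import Pool.Agent.AutGeo.A.Start
import Pool.Agent.AutGeo.A.ScaledStart

set_option autoImplicit false

namespace AutGeo

/-- one plane between two states -/
private lemma plane_of_step (N : ℝ × ℝ → ℝ) (hN : IsNorm N) (x y : ℝ × ℤˣ) (hx : |x.1| < N (3, 0))
    (h : StStep N x y) :
    ∃ (lam : ℝ × ℝ) (a : ZMod 4) (V : ℝ × ℝ) (q s : ℝ), (∀ z, dot lam z ≤ N z) ∧
      dot lam (TR' x.2) = x.1 ∧ dot lam (rotR a (TR y.2)) = y.1 ∧ dot lam V = N V ∧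
      (∀ r : ℝ, V ≠ r • TR' x.2) ∧ q ≠ 0 ∧ q • rotR a (TR y.2) - TR' x.2 = s • V := by
  obtain ⟨hy, lam, hlam, a, h1, h2⟩ := h
  have hA : |dot lam (rotR a (TR y.2))| < N (rotR a (TR y.2)) := by
    rw [h2, hN.rotR, (hN.TR _).1]; exact hy
  have hB : |dot lam (TR' x.2)| < N (TR' x.2) := by
    rw [h1, (hN.TR _).2]; exact hx
  obtain ⟨V, q, s, _, hV, hnp, hq, hs⟩ := plane_rigid N hN lam _ _ hlam hA hB
  exact ⟨lam, a, V, q, s, hlam.1, h1, h2, hV, hnp, hq, hs⟩

/-- A8 (first half): from a sequence of states (crossings `1..m`) from `(c₁,1)` to `(c₁,-1)`, the states `1..n` distinct, to configurations.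
Data: `e l := (x (l+1)).2`, `c l := (x l).1`. Plane `l`, `1 ≤ l < m`: `StStep N (x l) (x (l+1))` gives `lam l ∈ Sstar` and `a l` with
`dot (lam l) (TR' (e (l-1))) = c l` and `dot (lam l) (rotR (a l) (TR (e l))) = c (l+1)`; `plane_rigid` gives `V l`, `q l ≠ 0`, `s l`. `ζ 1 = 1`, `ζ (l+1) = q l * ζ l` (`1 ≤ l < m`), `ζ 0 = 0`, `ζ (m+1) = 0`.
Then `ζ (l+1) A - ζ l B = (ζ l * s l) • V l`. `H := ` minimum of 1 and `1 / (1 + |ζ l * s l|)`: for `|h| ≤ H`, `V + h (ζ l s l) V = r V` with `r ≥ 0`, where `N = dot lam`.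
Planes `0` and `m`: `a 0 = 0`, `e 0 = 1`, so `A 0 = (3,0)`; `e (m-1) = -1`, so `B m = T' (-1) = (3,0)`; `lam 0 = lam m = l`, `V 0 = V m = R • V₀` from `start_plane`, `R` large (depends on `δ`, `H`, `ζ 1`, `ζ m`):
`N (R V₀ + h ζ (3,0)) = R N (V₀ + (h ζ / R) (3,0)) ≤ dot l (..) + ε |h ζ|`, `ε |h ζ| ≤ δ`, once `|h ζ / R| ≤ h0 ε`. -/
theorem config_of_states (N : ℝ × ℝ → ℝ) (hN : IsNorm N) (m n : ℕ) (hm : 1 ≤ m) (hnm : n ≤ m) (x : ℕ → ℝ × ℤˣ)
    (hstep : ∀ l, 1 ≤ l → l < m → StStep N (x l) (x (l + 1)))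
    (hlt : ∀ l, 1 ≤ l → l ≤ m → |(x l).1| < N (3, 0))
    (hinj : ∀ i j, 1 ≤ i → i < j → j ≤ n → x i ≠ x j)
    (c : ℝ) (V0 l0 : ℝ × ℝ) (hl0 : ∀ y, dot l0 y ≤ N y) (hV0 : dot l0 V0 = N V0) (hc : dot l0 (3, 0) = c)
    (hd : ∀ ε : ℝ, 0 < ε → ∃ h0 : ℝ, 0 < h0 ∧ ∀ h : ℝ, |h| ≤ h0 →
        N (V0 + h • ((3, 0) : ℝ × ℝ)) ≤ dot l0 (V0 + h • ((3, 0) : ℝ × ℝ)) + ε * |h|)
    (hx1 : x 1 = (c, 1)) (hxm : x m = (c, -1)) :
    ∃ (a : ℕ → ZMod 4) (e : ℕ → ℤˣ) (c' ζ : ℕ → ℝ) (lam : ℕ → ℝ × ℝ) (H : ℝ), ∀ δ : ℝ, 0 < δ →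
      ∃ V : ℕ → ℝ × ℝ, Config N m n a e c' ζ lam V H δ := by
  have key : ∀ l : ℕ, ∃ (lam : ℝ × ℝ) (a : ZMod 4) (V : ℝ × ℝ) (q s : ℝ), 1 ≤ l → l < m →
      (∀ z, dot lam z ≤ N z) ∧
      dot lam (TR' (x l).2) = (x l).1 ∧ dot lam (rotR a (TR (x (l + 1)).2)) = (x (l + 1)).1 ∧
      dot lam V = N V ∧
      (∀ r : ℝ, V ≠ r • TR' (x l).2) ∧ q ≠ 0 ∧
      q • rotR a (TR (x (l + 1)).2) - TR' (x l).2 = s • V := by
    intro l
    by_cases h : 1 ≤ l ∧ l < m
    · obtain ⟨lam, a, V, q, s, h'⟩ :=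
        plane_of_step N hN (x l) (x (l + 1)) (hlt l h.1 h.2.le) (hstep l h.1 h.2)
      exact ⟨lam, a, V, q, s, fun _ _ => h'⟩
    · exact ⟨0, 0, 0, 0, 0, fun h1 h2 => absurd ⟨h1, h2⟩ h⟩
  choose lam' a' V' q s hkey using key
  have hm2 : m ≠ 1 := by
    rintro rfl
    rw [hx1] at hxm
    have h1 : (1 : ℤˣ) = -1 := congrArg Prod.snd hxm
    exact absurd h1 (by decide)
  -- the products
  set w : ℕ → ℝ := fun l => ∏ i ∈ Finset.Ico 1 l, q i with hw
  have hw1 : w 1 = 1 := by simp [hw]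
  have hws : ∀ l, 1 ≤ l → w (l + 1) = w l * q l := by
    intro l hl
    simp only [hw]
    rw [Finset.prod_Ico_succ_top hl]
  have hwne : ∀ l, l ≤ m → w l ≠ 0 := by
    intro l hl
    simp only [hw]
    rw [Finset.prod_ne_zero_iff]
    intro i hi
    rw [Finset.mem_Ico] at hi
    exact (hkey i hi.1 (by omega)).2.2.2.2.2.1
  set S : ℝ := ∑ l ∈ Finset.range m, |w l * s l| with hS
  have hS0 : 0 ≤ S := Finset.sum_nonneg fun _ _ => abs_nonneg _
  have hSl : ∀ l, l < m → |w l * s l| ≤ S := by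
    intro l hl
    exact Finset.single_le_sum (f := fun l => |w l * s l|) (fun _ _ => abs_nonneg _)
      (Finset.mem_range.2 hl)
  set H : ℝ := 1 / (1 + S) with hH
  have hHpos : 0 < H := by rw [hH]; positivity
  have hHS : H * S ≤ 1 := by
    rw [hH, div_mul_eq_mul_div, one_mul, div_le_one (by linarith)]
    linarith
  let e : ℕ → ℤˣ := fun l => (x (l + 1)).2
  let c' : ℕ → ℝ := fun l => (x l).1
  let a : ℕ → ZMod 4 := fun l => if l = 0 then 0 else a' l
  let ζ : ℕ → ℝ := fun l => if l = 0 ∨ m < l then 0 else w l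
  let lam : ℕ → ℝ × ℝ := fun l => if l = 0 ∨ m ≤ l then l0 else lam' l
  refine ⟨a, e, c', ζ, lam, H, ?_⟩
  intro δ hδ
  obtain ⟨R, hR, hRh⟩ := scaled_start N hN V0 l0 hd (H * (1 + |w m|)) δ hδ
  let V : ℕ → ℝ × ℝ := fun l => if l = 0 ∨ m ≤ l then R • V0 else V' l
  refine ⟨V, ?_⟩
  have hA0 : cR (Alin a e 0) = (3, 0) := by
    simp only [Alin, cR_rot, cR_T, a, e, if_true, hx1, rotR, TR]
  have hBm : cR (Blin e m) = (3, 0) := by
    have hmm : m - 1 + 1 = m := by omega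
    simp only [Blin, cR_T', e, hmm, hxm, TR']
    rw [if_neg (by decide)]
  have hA : ∀ l, 1 ≤ l → cR (Alin a e l) = rotR (a' l) (TR (x (l + 1)).2) := by
    intro l hl
    have : l ≠ 0 := by omega
    simp only [Alin, cR_rot, cR_T, a, e, if_neg this]
  have hB : ∀ l, 1 ≤ l → cR (Blin e l) = TR' (x l).2 := by
    intro l hl
    have hmm : l - 1 + 1 = l := by omega
    simp only [Blin, cR_T', e, hmm]
  have hmid : ∀ l, 1 ≤ l → l < m → ¬ (l = 0 ∨ m ≤ l) := by
    intro l h1 h2; omega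
  have hζmid : ∀ l, 1 ≤ l → l ≤ m → ζ l = w l := by
    intro l h1 h2
    have : ¬ (l = 0 ∨ m < l) := by omega
    simp only [ζ, if_neg this]
  have hζ0 : ζ 0 = 0 := by simp [ζ]
  have hζm : ζ (m + 1) = 0 := by simp [ζ]
  refine
    { Hpos := hHpos
      hn := hnm
      z0 := hζ0
      zm := hζm
      zne := fun l h1 h2 => by rw [hζmid l h1 h2]; exact hwne l h2
      lamN := ?_
      lamA := ?_
      lamB := ?_
      near := ?_
      npar := ?_
      dist := ?_ }
  · intro l hl z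
    by_cases h : l = 0 ∨ m ≤ l
    · simp only [lam, if_pos h]; exact hl0 z
    · simp only [lam, if_neg h]
      exact (hkey l (by omega) (by omega)).1 z
  · intro l hl
    rcases Nat.eq_zero_or_pos l with rfl | h
    · rw [hA0]
      simp only [lam, true_or, if_true, c', zero_add, hx1]
      exact hc
    · rw [hA l h]
      simp only [lam, if_neg (hmid l h hl), c']
      exact (hkey l h hl).2.2.1
  · intro l h1 hl
    rcases Nat.lt_or_ge l m with h | h
    · rw [hB l h1]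
      simp only [lam, if_neg (hmid l h1 h), c']
      exact (hkey l h1 h).2.1
    · have : l = m := le_antisymm hl h
      subst this
      rw [hBm]
      simp only [lam, le_refl, or_true, if_true, c', hxm]
      exact hc
  · intro l hl h hh
    by_cases hl' : l = 0 ∨ m ≤ l
    · have hVl : V l = R • V0 := by simp only [V, if_pos hl']
      have hll : lam l = l0 := by simp only [lam, if_pos hl']
      rw [hVl, hll]
      rcases hl' with rfl | hl'
      · rw [hA0, hζ0, hζmid (0 + 1) le_rfl (by omega), zero_smul, sub_zero]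
        have : w (0 + 1) = 1 := hw1
        rw [this, one_smul]
        apply hRh
        calc |h| ≤ H := hh
          _ = H * 1 := (mul_one _).symm
          _ ≤ H * (1 + |w m|) := by
            apply mul_le_mul_of_nonneg_left _ hHpos.le
            linarith [abs_nonneg (w m)]
      · have : l = m := le_antisymm hl hl'
        subst this
        rw [hBm, hζm, hζmid l hm le_rfl, zero_smul, zero_sub]
        have : h • (-(w l • ((3, 0) : ℝ × ℝ))) = (-(h * w l)) • ((3, 0) : ℝ × ℝ) := by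
          rw [smul_neg, smul_smul, neg_smul]
        rw [this]
        apply hRh
        rw [abs_neg, abs_mul]
        calc |h| * |w l| ≤ H * |w l| := mul_le_mul_of_nonneg_right hh (abs_nonneg _)
          _ ≤ H * (1 + |w l|) := by
            apply mul_le_mul_of_nonneg_left _ hHpos.le
            linarith
    · have h1 : 1 ≤ l := by omega
      have h2 : l < m := by omega
      have hVl : V l = V' l := by simp only [V, if_neg hl']
      have hll : lam l = lam' l := by simp only [lam, if_neg hl']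
      rw [hVl, hll, hA l h1, hB l h1, hζmid l h1 h2.le, hζmid (l + 1) (by omega) (by omega),
        hws l h1]
      obtain ⟨k1, k2, k3, k4, k5, k6, k7⟩ := hkey l h1 h2
      have e1 : (w l * q l) • rotR (a' l) (TR (x (l + 1)).2) - w l • TR' (x l).2
          = (w l * s l) • V' l := by
        rw [mul_smul, ← smul_sub, k7, smul_smul]
      rw [e1]
      have e2 : V' l + h • ((w l * s l) • V' l) = (1 + h * (w l * s l)) • V' l := by
        rw [smul_smul, add_smul, one_smul]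
      rw [e2, hN.smul, dot_smul, k4]
      have hr : 0 ≤ 1 + h * (w l * s l) := by
        have : |h * (w l * s l)| ≤ 1 := by
          rw [abs_mul]
          calc |h| * |w l * s l| ≤ H * S :=
                mul_le_mul hh (hSl l h2) (abs_nonneg _) hHpos.le
            _ ≤ 1 := hHS
        linarith [neg_abs_le (h * (w l * s l))]
      rw [abs_of_nonneg hr]
      linarith
  · intro l h1 h2 r
    have hVl : V l = V' l := by simp only [V, if_neg (hmid l h1 h2)]
    rw [hVl, hB l h1]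
    exact (hkey l h1 h2).2.2.2.2.1 r
  · intro i j hi hij hj he hcc
    apply hinj i j hi hij hj
    have h1 : i - 1 + 1 = i := by omega
    have h2 : j - 1 + 1 = j := by omega
    simp only [e, h1, h2] at he
    exact Prod.ext hcc he

end AutGeo
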