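import Pool.Agent.AutGeo.A.TwoFun

set_option autoImplicit false

namespace AutGeo

/-- the functionals of the dual sphere with value in the finite set `C` at `x`: every value twice -/
theorem fiber_sum (N : ℝ × ℝ → ℝ) (hN : IsNorm N) (x : ℝ × ℝ) (hx : x ≠ 0) (C : Finset ℝ)
    (hC : ∀ c ∈ C, |c| < N x) :
    ∃ Λ : Finset (ℝ × ℝ), (∀ l, l ∈ Λ ↔ l ∈ Sstar N ∧ dot l x ∈ C) ∧ Λ.card = 2 * C.card ∧
      ∑ l ∈ Λ, (dot l x) ^ 2 = 2 * ∑ c ∈ C, c ^ 2 := by
  classical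
  have key : ∀ c : ℝ, ∃ F : Finset (ℝ × ℝ), c ∈ C →
      F.card = 2 ∧ ∀ l, l ∈ F ↔ (l ∈ Sstar N ∧ dot l x = c) := by
    intro c
    by_cases hc : c ∈ C
    · obtain ⟨l₁, l₂, hne, hset⟩ := two_functionals N hN x hx c (hC c hc)
      refine ⟨{l₁, l₂}, fun _ => ⟨Finset.card_pair hne, fun l => ?_⟩⟩
      have h1 : l ∈ {l | l ∈ Sstar N ∧ dot l x = c} ↔ l ∈ ({l₁, l₂} : Set (ℝ × ℝ)) := by
        rw [hset]
      simp only [Set.mem_ofPred_eq, Set.mem_insert_iff, Set.mem_singleton_iff] at h1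
      simp only [Finset.mem_insert, Finset.mem_singleton]
      exact h1.symm
    · exact ⟨∅, fun h => absurd h hc⟩
  choose F hF using key
  have hdisj : (C : Set ℝ).PairwiseDisjoint F := by
    intro c hc d hd hcd
    refine Finset.disjoint_left.2 fun l hl hl' => hcd ?_
    have h1 := ((hF c hc).2 l).1 hl
    have h2 := ((hF d hd).2 l).1 hl'
    rw [← h1.2, ← h2.2]
  refine ⟨C.biUnion F, ?_, ?_, ?_⟩
  · intro l
    rw [Finset.mem_biUnion]
    constructor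
    · rintro ⟨c, hc, hl⟩
      have h1 := ((hF c hc).2 l).1 hl
      exact ⟨h1.1, by rw [h1.2]; exact hc⟩
    · rintro ⟨h1, h2⟩
      exact ⟨dot l x, h2, ((hF _ h2).2 l).2 ⟨h1, rfl⟩⟩
  · rw [Finset.card_biUnion hdisj, Finset.sum_congr rfl fun c hc => (hF c hc).1]
    simp [mul_comm]
  · rw [Finset.sum_biUnion hdisj, Finset.mul_sum]
    refine Finset.sum_congr rfl fun c hc => ?_
    have h1 : ∀ l ∈ F c, (dot l x) ^ 2 = c ^ 2 := by
      intro l hl
      rw [(((hF c hc).2 l).1 hl).2]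
    rw [Finset.sum_congr rfl h1, Finset.sum_const, (hF c hc).1]
    simp

end AutGeo
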