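import Pool.Agent.AutGeo.A.FinalB

set_option autoImplicit false

namespace AutGeo

open Finset

/-- A9, the end: `PropQ` contradicts the existence of configurations for all `n`, `δ`.
Proof: `Nc` from `PropQ`, `n := Nc + 1`. `m, a, e, c, ζ, lam, H` from `hconf` (so `1 ≤ m` as `n ≤ m`). `κ > 0`: minimum of `|c i - c j|` over the pairs `1 ≤ i < j ≤ n` with `e (i-1) = e (j-1)`.
`η := H * min |ζ i| > 0` (over `1 ≤ i ≤ m`). `δ := κ η / (8 (m+1))`, `V` from `hconf`. For natural `M`: `v l :=` rounding of `M • V l`, `N (cR (v l) - M • V l) ≤ 2 N (1,0)` or so. For large `M` the sequence is reduced (`npar`: distance of `V l` to the line of `B l` is positive).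
`Y, col` from `PropQ`. `(Q0)`, `p ≥ N`, `p (v l) ≤ K M`: `|disp v a e Y l| ≤ K' M + K'` and so (every plane `l ≥ 1`.. from plane 0 on: `Y (l+1) • A l = disp - v l + Y l • B l`) `|Y l| ≤ K' M + K'`, `K'` independent of `M`.
Pigeonhole: `1 ≤ i < j ≤ n` with `col i = col j`; so `c i ≠ c j`, `0 ≤ Y i * Y j`. `s = ±1` with `s Y i ≤ 0`, `s Y j ≤ 0`; `z := s ⌊η M⌋` (`≠ 0` for large `M`). Choose the order `(p,q) = (i,j)` or `(j,i)` with `(c p - c q) z = -|c i - c j| |z|`.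
`Z` from `shift_sums` at `p`, `Z'` at `q`; `X := Y + Z`, `X' := Y + Z'` in `(Q1)`: with `p ≥ N` on the left, `p ≤ N + ε|.| + C_ε` on the right (`ε` with `ε K'' ≤ κ η / 8`):
`0 ≤ (c p - c q) z + 2(m+1) δ M + (κ η/8) M + const`, `≤ -κ (η M - 1) + κ η M/4 + κ η M/8 + const`: false for large `M`. -/
theorem final_contradiction (p : ℤ × ℤ → ℝ) (hp : PHyp p) (hQ : PropQ p) (N : ℝ × ℝ → ℝ) (hN : IsNorm N)
    (hlow : ∀ v, N (cR v) ≤ p v)
    (hup : ∀ ε : ℝ, 0 < ε → ∃ C : ℝ, ∀ v : ℤ × ℤ, p v ≤ N (cR v) + ε * (|(v.1 : ℝ)| + |(v.2 : ℝ)|) + C)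
    (hconf : ∀ n : ℕ, 1 ≤ n → ∃ (m : ℕ) (a : ℕ → ZMod 4) (e : ℕ → ℤˣ) (c ζ : ℕ → ℝ) (lam : ℕ → ℝ × ℝ) (H : ℝ),
      ∀ δ : ℝ, 0 < δ → ∃ V : ℕ → ℝ × ℝ, Config N m n a e c ζ lam V H δ) : False := by
  sorry

end AutGeo
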