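import Pool.Agent.AutGeo.A.SstarRot

set_option autoImplicit false

namespace AutGeo

/-- norm and coordinates are equivalent -/
private lemma coord_bound_aux (N : ℝ × ℝ → ℝ) (hN : IsNorm N) :
    ∃ c : ℝ, 0 < c ∧ ∀ x : ℝ × ℝ, c * (|x.1| + |x.2|) ≤ N x := by
  have h0 : N 0 = 0 := IsNorm.zero hN
  have hnn : ∀ x, 0 ≤ N x := by
    intro x
    by_cases hx : x = 0
    · rw [hx, h0]
    · exact (hN.pos x hx).le
  have hup : ∀ x : ℝ × ℝ, N x ≤ |x.1| * N (1, 0) + |x.2| * N (0, 1) := by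
    intro x
    have hx : x = x.1 • ((1 : ℝ), (0 : ℝ)) + x.2 • ((0 : ℝ), (1 : ℝ)) := by
      ext <;> simp
    calc N x = N (x.1 • ((1 : ℝ), (0 : ℝ)) + x.2 • ((0 : ℝ), (1 : ℝ))) := by rw [← hx]
      _ ≤ N (x.1 • ((1 : ℝ), (0 : ℝ))) + N (x.2 • ((0 : ℝ), (1 : ℝ))) := hN.add _ _
      _ = |x.1| * N (1, 0) + |x.2| * N (0, 1) := by rw [hN.smul, hN.smul]
  have hlip : ∀ x y : ℝ × ℝ, |N x - N y| ≤ N (x - y) := by
    intro x y
    rw [abs_le]
    constructor
    · have h := hN.add x (y - x)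
      have h2 : N (y - x) = N (x - y) := by
        rw [← IsNorm.neg hN (x - y), neg_sub]
      rw [add_sub_cancel, h2] at h
      linarith
    · have h := hN.add y (x - y)
      rw [add_sub_cancel] at h
      linarith
  have hcont : Continuous N := by
    rw [Metric.continuous_iff]
    intro y ε hε
    obtain ⟨K, hK⟩ : ∃ K : ℝ, K = N (1, 0) + N (0, 1) + 1 := ⟨_, rfl⟩
    have h10 := hnn (1, 0)
    have h01 := hnn (0, 1)
    have hKpos : 0 < K := by rw [hK]; linarith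
    refine ⟨ε / K, div_pos hε hKpos, ?_⟩
    intro x hx
    rw [Real.dist_eq]
    have h1 : |(x - y).1| ≤ dist x y := by
      rw [Prod.dist_eq, Prod.fst_sub, ← Real.dist_eq]
      exact le_max_left _ _
    have h2 : |(x - y).2| ≤ dist x y := by
      rw [Prod.dist_eq, Prod.snd_sub, ← Real.dist_eq]
      exact le_max_right _ _
    have hd : 0 ≤ dist x y := dist_nonneg
    calc |N x - N y| ≤ N (x - y) := hlip x y
      _ ≤ |(x - y).1| * N (1, 0) + |(x - y).2| * N (0, 1) := hup _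
      _ ≤ dist x y * N (1, 0) + dist x y * N (0, 1) :=
          add_le_add (mul_le_mul_of_nonneg_right h1 h10) (mul_le_mul_of_nonneg_right h2 h01)
      _ ≤ dist x y * K := by rw [hK]; nlinarith
      _ < ε / K * K := mul_lt_mul_of_pos_right hx hKpos
      _ = ε := div_mul_cancel₀ ε hKpos.ne'
  have hcpt : IsCompact {x : ℝ × ℝ | |x.1| + |x.2| = 1} := by
    apply Metric.isCompact_of_isClosed_isBounded
    · exact isClosed_eq (by fun_prop) continuous_const
    · refine (Metric.isBounded_closedBall (x := (0 : ℝ × ℝ)) (r := 1)).subset ?_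
      intro x hx
      rw [Metric.mem_closedBall, Prod.dist_eq, Real.dist_eq, Real.dist_eq]
      have hx' : |x.1| + |x.2| = 1 := hx
      have h1 := abs_nonneg x.1
      have h2 := abs_nonneg x.2
      apply max_le
      · simp only [Prod.fst_zero, sub_zero]; linarith
      · simp only [Prod.snd_zero, sub_zero]; linarith
  obtain ⟨x0, hx0, hmin⟩ := hcpt.exists_isMinOn ⟨((1 : ℝ), (0 : ℝ)), by simp⟩ hcont.continuousOn
  have hx0' : |x0.1| + |x0.2| = 1 := hx0
  have hx0ne : x0 ≠ 0 := by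
    intro h
    rw [h] at hx0'
    simp at hx0'
  refine ⟨N x0, hN.pos x0 hx0ne, ?_⟩
  intro x
  by_cases hx : x = 0
  · rw [hx, h0]; simp
  · have hr : 0 < |x.1| + |x.2| := by
      by_contra hcon
      have h1 := abs_nonneg x.1
      have h2 := abs_nonneg x.2
      have h3 : |x.1| = 0 := by linarith
      have h4 : |x.2| = 0 := by linarith
      exact hx (Prod.ext (abs_eq_zero.mp h3) (abs_eq_zero.mp h4))
    obtain ⟨r, hr'⟩ : ∃ r : ℝ, r = |x.1| + |x.2| := ⟨_, rfl⟩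
    rw [← hr'] at hr ⊢
    have hmem : r⁻¹ • x ∈ {x : ℝ × ℝ | |x.1| + |x.2| = 1} := by
      change |(r⁻¹ • x).1| + |(r⁻¹ • x).2| = 1
      rw [Prod.smul_fst, Prod.smul_snd, smul_eq_mul, smul_eq_mul, abs_mul, abs_mul, ← mul_add,
        ← hr', abs_of_pos (inv_pos.mpr hr), inv_mul_cancel₀ hr.ne']
    have hle : N x0 ≤ N (r⁻¹ • x) := hmin hmem
    rw [hN.smul, abs_of_pos (inv_pos.mpr hr)] at hle
    calc N x0 * r ≤ r⁻¹ * N x * r := mul_le_mul_of_nonneg_right hle hr.le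
      _ = N x := by field_simp

/-- for large `M` the rounded sequence is reduced: `V (l+1)` is not on the line through
`Blin e (l+1) = T' (e l)`, so `N (V (l+1) - r • cR B) ≥ ρ > 0` for all real `r` (closed line; or:
a functional vanishing on `B` but not on `V`),
while `v (l+1) = j • B` gives `N (V (l+1) - (j/M) • cR B) ≤ C0 / M`. Finitely many `l`. -/
theorem reduced_large (N : ℝ × ℝ → ℝ) (hN : IsNorm N) {m : ℕ} {e : ℕ → ℤˣ} {V : ℕ → ℝ × ℝ} (a : ℕ → ZMod 4)
    (hV : ∀ l, 1 ≤ l → l < m → ∀ r : ℝ, V l ≠ r • cR (Blin e l)) (C0 : ℝ) :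
    ∃ M0 : ℝ, 0 < M0 ∧ ∀ M : ℝ, M0 ≤ M → ∀ v : ℕ → ℤ × ℤ, (∀ l, l ≤ m → N (cR (v l) - M • V l) ≤ C0) →
      RedSeq v a e m := by
  obtain ⟨c, hc, hcN⟩ := coord_bound_aux N hN
  have key : ∀ l : ℕ, ∃ M1 : ℝ, l + 1 < m → ∀ M : ℝ, M1 < M → 0 < M → ∀ j : ℤ,
      ¬ N ((j : ℝ) • cR (Blin e (l + 1)) - M • V (l + 1)) ≤ C0 := by
    intro l
    by_cases hl : l + 1 < m
    · obtain ⟨B, hB⟩ : ∃ B : ℝ × ℝ, B = cR (Blin e (l + 1)) := ⟨_, rfl⟩
      obtain ⟨W, hW⟩ : ∃ W : ℝ × ℝ, W = V (l + 1) := ⟨_, rfl⟩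
      have hBW : ∀ r : ℝ, W ≠ r • B := by
        rw [hB, hW]
        exact hV (l + 1) (by omega) hl
      have hB1 : B.1 ≠ 0 := by
        rw [hB]
        unfold Blin
        rw [cR_T']
        unfold TR'
        split_ifs <;> norm_num
      have hφ : W.1 * B.2 - W.2 * B.1 ≠ 0 := by
        intro h0
        apply hBW (W.1 / B.1)
        ext
        · simp only [Prod.smul_fst, smul_eq_mul]
          field_simp
        · simp only [Prod.smul_snd, smul_eq_mul]
          field_simp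
          linarith
      obtain ⟨p, hp⟩ : ∃ p : ℝ, p = |W.1 * B.2 - W.2 * B.1| := ⟨_, rfl⟩
      have hpp : 0 < p := by rw [hp]; exact abs_pos.mpr hφ
      obtain ⟨K, hK⟩ : ∃ K : ℝ, K = |B.1| + |B.2| := ⟨_, rfl⟩
      have hKnn : 0 ≤ K := by rw [hK]; positivity
      refine ⟨K * C0 / (c * p), ?_⟩
      intro _ M hM hM0 j hle
      rw [← hB, ← hW] at hle
      obtain ⟨x, hx⟩ : ∃ x : ℝ × ℝ, x = (j : ℝ) • B - M • W := ⟨_, rfl⟩
      rw [← hx] at hle
      have hφx : x.1 * B.2 - x.2 * B.1 = - M * (W.1 * B.2 - W.2 * B.1) := by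
        rw [hx]
        simp only [Prod.fst_sub, Prod.snd_sub, Prod.smul_fst, Prod.smul_snd, smul_eq_mul]
        ring
      have habs : M * p ≤ K * (|x.1| + |x.2|) := by
        have h1 : M * p = |x.1 * B.2 - x.2 * B.1| := by
          rw [hφx, abs_mul, abs_neg, abs_of_pos hM0, hp]
        rw [h1]
        calc |x.1 * B.2 - x.2 * B.1| ≤ |x.1 * B.2| + |x.2 * B.1| := abs_sub _ _
          _ = |x.1| * |B.2| + |x.2| * |B.1| := by rw [abs_mul, abs_mul]
          _ ≤ K * (|x.1| + |x.2|) := by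
            rw [hK]
            have e1 := abs_nonneg x.1
            have e2 := abs_nonneg x.2
            have e3 := abs_nonneg B.1
            have e4 := abs_nonneg B.2
            nlinarith [mul_nonneg e1 e3, mul_nonneg e2 e4]
      have h2 : c * (M * p) ≤ K * C0 := by
        calc c * (M * p) ≤ c * (K * (|x.1| + |x.2|)) := mul_le_mul_of_nonneg_left habs hc.le
          _ = K * (c * (|x.1| + |x.2|)) := by ring
          _ ≤ K * N x := mul_le_mul_of_nonneg_left (hcN x) hKnn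
          _ ≤ K * C0 := mul_le_mul_of_nonneg_left hle hKnn
      have h3 : M ≤ K * C0 / (c * p) := by
        rw [le_div_iff₀ (mul_pos hc hpp)]
        calc M * (c * p) = c * (M * p) := by ring
          _ ≤ K * C0 := h2
      exact absurd h3 (not_le.mpr hM)
    · exact ⟨0, fun h => absurd h hl⟩
  choose f hf using key
  refine ⟨1 + ∑ l ∈ Finset.range m, |f l|, ?_, ?_⟩
  · have : 0 ≤ ∑ l ∈ Finset.range m, |f l| := Finset.sum_nonneg fun l _ => abs_nonneg _
    linarith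
  · intro M hM v hv l hl hcon
    obtain ⟨-, -, j, hj⟩ := hcon
    have hs : |f l| ≤ ∑ l ∈ Finset.range m, |f l| :=
      Finset.single_le_sum (f := fun l => |f l|) (fun i _ => abs_nonneg _)
        (Finset.mem_range.mpr (by omega))
    have hfl := le_abs_self (f l)
    have hnn := abs_nonneg (f l)
    apply hf l hl M (by linarith) (by linarith) j
    have h := hv (l + 1) (by omega)
    rw [hj, cR_smul] at h
    exact h

/-- bound of the crossing positions: `Y (l+1) • A = disp - v l + Y l • B`, `N A = N B = N (3,0)` -/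
theorem Y_bound (N : ℝ × ℝ → ℝ) (hN : IsNorm N) (m : ℕ) (v : ℕ → ℤ × ℤ) (a : ℕ → ZMod 4) (e : ℕ → ℤˣ) (Y : ℕ → ℤ) (S : ℝ)
    (hY0 : Y 0 = 0) (h1 : ∀ l, l ≤ m → N (cR (disp v a e Y l)) ≤ S) (h2 : ∀ l, l ≤ m → N (cR (v l)) ≤ S)
    (l : ℕ) (hl : l ≤ m) : |(Y l : ℝ)| * N (3, 0) ≤ 2 * l * S := by
  induction l with
  | zero => rw [hY0]; simp
  | succ l ih =>
    have ihl := ih (by omega)
    have hA : N (cR (Alin a e l)) = N (3, 0) := by
      unfold Alin
      rw [cR_rot, IsNorm.rotR hN, cR_T, (IsNorm.TR hN (e l)).1]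
    have hB : N (cR (Blin e l)) = N (3, 0) := by
      unfold Blin
      rw [cR_T', (IsNorm.TR hN (e (l - 1))).2]
    have hdec : ((Y (l + 1) : ℤ) : ℝ) • cR (Alin a e l) =
        cR (disp v a e Y l) + (-(cR (v l)) + ((Y l : ℤ) : ℝ) • cR (Blin e l)) := by
      unfold disp
      rw [cR_sub, cR_add, cR_smul, cR_smul]
      abel
    have hN1 : N (((Y (l + 1) : ℤ) : ℝ) • cR (Alin a e l)) = |(Y (l + 1) : ℝ)| * N (3, 0) := by
      rw [hN.smul, hA]
    have hN2 : N (((Y l : ℤ) : ℝ) • cR (Blin e l)) = |(Y l : ℝ)| * N (3, 0) := by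
      rw [hN.smul, hB]
    have hd := h1 l (by omega)
    have hv := h2 l (by omega)
    rw [← hN1, hdec]
    calc N (cR (disp v a e Y l) + (-(cR (v l)) + ((Y l : ℤ) : ℝ) • cR (Blin e l)))
        ≤ N (cR (disp v a e Y l)) + N (-(cR (v l)) + ((Y l : ℤ) : ℝ) • cR (Blin e l)) :=
          hN.add _ _
      _ ≤ N (cR (disp v a e Y l)) + (N (-(cR (v l))) + N (((Y l : ℤ) : ℝ) • cR (Blin e l))) :=
          add_le_add le_rfl (hN.add _ _)
      _ ≤ S + (S + 2 * l * S) := by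
          rw [IsNorm.neg hN, hN2]
          exact add_le_add hd (add_le_add hv ihl)
      _ = 2 * ((l + 1 : ℕ) : ℝ) * S := by push_cast; ring

/-- norm and coordinates are equivalent -/
theorem coord_bound (N : ℝ × ℝ → ℝ) (hN : IsNorm N) :
    ∃ c : ℝ, 0 < c ∧ ∀ x : ℝ × ℝ, c * (|x.1| + |x.2|) ≤ N x :=
  coord_bound_aux N hN

end AutGeo
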