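import Pool.Agent.AutGeo.A.Half2
import Pool.Agent.AutGeo.A.FinalA

set_option autoImplicit false

namespace AutGeo

open Finset

/-- A9 for one `M`. Let `z₀ ≥ 1` be a natural number with `z₀ ≤ H M |ζ i|`, `≤ H M |ζ j|`. Choose `s = ±1` with `s Y i ≤ 0`, `s Y j ≤ 0` (possible as `0 ≤ Y i Y j`), `z = s z₀`. If `(c i - c j) s ≤ 0` use `hQ` in the order `(i, j)`, otherwise in the order `(j, i)`.
`Z` from `shift_sums` at the first index, `Z'` at the second, `X = Y + Z`, `X' = Y + Z'` in `(Q1)` (`X 0 = 0`, `X' (m+1) = 0`, `X i - X' j = Y i - Y j`). Left side: `p ≥ N`. Right side: `p ≤ N + ε |.| + Cε`, at most `2(m+1)` terms, coordinates of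
`disp v a e (Y + Z) l` at most `B` (hypothesis `hB`, all admissible `Z`). -/
theorem one_M (p : ℤ × ℤ → ℝ) (N : ℝ × ℝ → ℝ) (hN : IsNorm N) (hlow : ∀ v, N (cR v) ≤ p v)
    (ε Cε : ℝ) (hε : 0 ≤ ε) (hCε : 0 ≤ Cε) (hup : ∀ v : ℤ × ℤ, p v ≤ N (cR v) + ε * (|(v.1 : ℝ)| + |(v.2 : ℝ)|) + Cε)
    {m n : ℕ} {a : ℕ → ZMod 4} {e : ℕ → ℤˣ} {c ζ : ℕ → ℝ} {lam V : ℕ → ℝ × ℝ} {H δ : ℝ} (hδ : 0 ≤ δ)
    (hC : Config N m n a e c ζ lam V H δ) (M C0 : ℝ) (hM : 0 < M) (hC0 : 0 ≤ C0)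
    (v : ℕ → ℤ × ℤ) (hv : ∀ l, l ≤ m → N (cR (v l) - M • V l) ≤ C0)
    (Y : ℕ → ℤ) (hY0 : Y 0 = 0) (hYm : Y (m + 1) = 0) (i j : ℕ) (hi1 : 1 ≤ i) (him : i ≤ m) (hj1 : 1 ≤ j) (hjm : j ≤ m)
    (hYij : 0 ≤ Y i * Y j) (z₀ : ℕ) (hz : 1 ≤ z₀) (hzi : (z₀ : ℝ) ≤ H * M * |ζ i|) (hzj : (z₀ : ℝ) ≤ H * M * |ζ j|)
    (C : ℝ)
    (hQ : ∀ i' j' : ℕ, (i' = i ∧ j' = j) ∨ (i' = j ∧ j' = i) →
      ∀ X X' : ℕ → ℤ, X 0 = 0 → X' (m + 1) = 0 → X i' - X' j' = Y i' - Y j' →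
          ∑ l ∈ range i', p (disp v a e Y l) + ∑ l ∈ Ico j' (m + 1), p (disp v a e Y l) ≤
            ∑ l ∈ range i', p (disp v a e X l) + ∑ l ∈ Ico j' (m + 1), p (disp v a e X' l) + C)
    (B : ℝ)
    (hB : ∀ i' : ℕ, i' = i ∨ i' = j → ∀ Z : ℕ → ℤ, Z 0 = 0 → Z (m + 1) = 0 →
      (∀ l, |(Z l : ℝ)| ≤ |(Y l : ℝ)| + (z₀ : ℝ) * |ζ l / ζ i'| + 1) → ∀ l, l ≤ m →
        |((disp v a e (fun k => Y k + Z k) l).1 : ℝ)| + |((disp v a e (fun k => Y k + Z k) l).2 : ℝ)| ≤ B) :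
    |c i - c j| * z₀ ≤ 2 * ((m + 1) * (δ * M + (2 * C0 + 2 * N (3, 0)))) + 2 * (m + 1) * (ε * B + Cε) + C := by
  have key : ∀ i' j' : ℕ, (i' = i ∧ j' = j) ∨ (i' = j ∧ j' = i) → ∀ z : ℤ, z ≠ 0 → |(z : ℝ)| = z₀ →
      z * Y i' ≤ 0 → z * Y j' ≤ 0 → -((z : ℝ) * (c i' - c j')) ≤
        2 * ((m + 1) * (δ * M + (2 * C0 + 2 * N (3, 0)))) + 2 * (m + 1) * (ε * B + Cε) + C := by
    intro i' j' hij z hz0 hzabs hzi' hzj'
    have hi' : 1 ≤ i' ∧ i' ≤ m ∧ (z₀ : ℝ) ≤ H * M * |ζ i'| ∧ (i' = i ∨ i' = j) := by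
      rcases hij with ⟨rfl, -⟩ | ⟨rfl, -⟩
      · exact ⟨hi1, him, hzi, Or.inl rfl⟩
      · exact ⟨hj1, hjm, hzj, Or.inr rfl⟩
    have hj' : 1 ≤ j' ∧ j' ≤ m ∧ (z₀ : ℝ) ≤ H * M * |ζ j'| ∧ (j' = i ∨ j' = j) := by
      rcases hij with ⟨-, rfl⟩ | ⟨-, rfl⟩
      · exact ⟨hj1, hjm, hzj, Or.inr rfl⟩
      · exact ⟨hi1, him, hzi, Or.inl rfl⟩
    obtain ⟨Z, hZ0, hZm, hZi, hZb, hZs, -⟩ := shift_sums N hN hδ hC M C0 hM hC0 v hv Y hY0 hYm i'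
      hi'.1 hi'.2.1 z hz0 hzi' (hzabs ▸ hi'.2.2.1)
    obtain ⟨Z', hZ'0, hZ'm, hZ'j, hZ'b, -, hZ's⟩ := shift_sums N hN hδ hC M C0 hM hC0 v hv Y hY0
      hYm j' hj'.1 hj'.2.1 z hz0 hzj' (hzabs ▸ hj'.2.2.1)
    rw [hzabs] at hZb hZ'b
    have b1 := hB i' hi'.2.2.2 Z hZ0 hZm hZb
    have b2 := hB j' hj'.2.2.2 Z' hZ'0 hZ'm hZ'b
    have hB0 : 0 ≤ B := by
      refine le_trans ?_ (b1 0 (Nat.zero_le m))
      positivity
    have hK : 0 ≤ ε * B + Cε := by positivity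
    have hp : ∀ (W : ℕ → ℤ), (∀ l, l ≤ m →
        |((disp v a e (fun k => Y k + W k) l).1 : ℝ)| + |((disp v a e (fun k => Y k + W k) l).2 : ℝ)| ≤ B) →
        ∀ s : Finset ℕ, (∀ l ∈ s, l ≤ m) → s.card ≤ m + 1 →
        ∑ l ∈ s, p (disp v a e (fun k => Y k + W k) l) ≤
          ∑ l ∈ s, N (cR (disp v a e (fun k => Y k + W k) l)) + (m + 1) * (ε * B + Cε) := by
      intro W hW s hs hcard
      have h1 : ∑ l ∈ s, p (disp v a e (fun k => Y k + W k) l) ≤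
          ∑ l ∈ s, (N (cR (disp v a e (fun k => Y k + W k) l)) + (ε * B + Cε)) := by
        refine sum_le_sum fun l hl => ?_
        have h2 := hup (disp v a e (fun k => Y k + W k) l)
        have h3 := mul_le_mul_of_nonneg_left (hW l (hs l hl)) hε
        linarith
      rw [sum_add_distrib, sum_const, nsmul_eq_mul] at h1
      have h4 : (s.card : ℝ) ≤ m + 1 := by exact_mod_cast hcard
      have h5 := mul_le_mul_of_nonneg_right h4 hK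
      linarith
    have hq := hQ i' j' hij (fun k => Y k + Z k) (fun k => Y k + Z' k) (by simp [hY0, hZ0])
      (by simp [hYm, hZ'm]) (by simp only [hZi, hZ'j]; ring)
    have hl1 : ∑ l ∈ range i', N (cR (disp v a e Y l)) ≤ ∑ l ∈ range i', p (disp v a e Y l) :=
      sum_le_sum fun l _ => hlow _
    have hl2 : ∑ l ∈ Ico j' (m + 1), N (cR (disp v a e Y l)) ≤
        ∑ l ∈ Ico j' (m + 1), p (disp v a e Y l) := sum_le_sum fun l _ => hlow _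
    have hr1 := hp Z b1 (range i') (fun l hl => by
      have := mem_range.1 hl
      omega) (by rw [card_range]; omega)
    have hr2 := hp Z' b2 (Ico j' (m + 1)) (fun l hl => by
      have := (mem_Ico.1 hl).2
      omega) (by rw [Nat.card_Ico]; omega)
    linarith
  obtain ⟨s, hs, hsi, hsj⟩ : ∃ s : ℤ, (s = 1 ∨ s = -1) ∧ s * Y i ≤ 0 ∧ s * Y j ≤ 0 := by
    rcases lt_trichotomy (Y i) 0 with h | h | h
    · refine ⟨1, Or.inl rfl, by linarith, ?_⟩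
      have : Y j ≤ 0 := by
        by_contra hcon
        push Not at hcon
        have := mul_neg_of_neg_of_pos h hcon
        linarith
      linarith
    · rcases le_total (Y j) 0 with h' | h'
      · exact ⟨1, Or.inl rfl, by linarith, by linarith⟩
      · exact ⟨-1, Or.inr rfl, by linarith, by linarith⟩
    · refine ⟨-1, Or.inr rfl, by linarith, ?_⟩
      have : 0 ≤ Y j := by
        by_contra hcon
        push Not at hcon
        have := mul_neg_of_pos_of_neg h hcon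
        linarith
      linarith
  have hz₀ : (0 : ℝ) ≤ (z₀ : ℝ) := Nat.cast_nonneg _
  have hz₀' : (0 : ℤ) ≤ (z₀ : ℤ) := Int.natCast_nonneg _
  have hz0 : s * (z₀ : ℤ) ≠ 0 := by
    rcases hs with rfl | rfl <;> omega
  have hzabs : |((s * (z₀ : ℤ) : ℤ) : ℝ)| = z₀ := by
    rcases hs with rfl | rfl <;> simp
  have hzi' : s * (z₀ : ℤ) * Y i ≤ 0 := by
    have := mul_nonpos_of_nonpos_of_nonneg hsi hz₀'
    linarith
  have hzj' : s * (z₀ : ℤ) * Y j ≤ 0 := by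
    have := mul_nonpos_of_nonpos_of_nonneg hsj hz₀'
    linarith
  rcases le_total ((s : ℝ) * (c i - c j)) 0 with h | h
  · have h1 := key i j (Or.inl ⟨rfl, rfl⟩) _ hz0 hzabs hzi' hzj'
    have h2 : |c i - c j| = -((s : ℝ) * (c i - c j)) := by
      rw [← abs_of_nonpos h, abs_mul]
      rcases hs with rfl | rfl <;> simp
    rw [h2]
    push_cast at h1
    linarith
  · have h1 := key j i (Or.inr ⟨rfl, rfl⟩) _ hz0 hzabs hzj' hzi'
    have h2 : |c i - c j| = (s : ℝ) * (c i - c j) := by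
      rw [← abs_of_nonneg h, abs_mul]
      rcases hs with rfl | rfl <;> simp
    rw [h2]
    push_cast at h1
    linarith

end AutGeo
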