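import Mathlib

set_option autoImplicit false

namespace AutGeo

/-- General: if no finite set containing `x0` is closed and the graph is locally finite on the vertices satisfying `P`, there are injective paths of every length from `x0`.
Proof: `B k` = set of vertices reached by paths of length `≤ k`; finite; not closed, so `B k ≠ B (k+1)`; take a vertex of `B n \ B (n-1)` and a path of length `n` to it: the `i`-th vertex is at distance
exactly `i`, so the vertices are distinct. -/
theorem path_of_no_finite {α : Type} (r : α → α → Prop) (P : α → Prop) (hP : ∀ x y, P x → r x y → P y)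
    (hf : ∀ x, P x → {y | r x y}.Finite) (x0 : α) (h0 : P x0)
    (hno : ∀ R : Set α, R.Finite → x0 ∈ R → (∀ x ∈ R, P x) → ∃ x ∈ R, ∃ y, y ∉ R ∧ r x y) (n : ℕ) :
    ∃ x : ℕ → α, x 0 = x0 ∧ (∀ i, i < n → r (x i) (x (i + 1))) ∧ (∀ i, i ≤ n → ∀ j, j ≤ n → x i = x j → i = j) ∧
      ∀ i, i ≤ n → P (x i) := by
  sorry

end AutGeo
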