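import Pool.Agent.AutGeo.A.Plane

set_option autoImplicit false

namespace AutGeo

open Finset

/-- `N` of the exit direction. -/
private lemma half_N_A {N : ℝ × ℝ → ℝ} (hN : IsNorm N) (a : ℕ → ZMod 4) (e : ℕ → ℤˣ) (l : ℕ) :
    N (cR (Alin a e l)) = N (3, 0) := by
  rw [Alin, cR_rot, cR_T, hN.rotR]
  exact (hN.TR (e l)).1

/-- `N` of the entry direction. -/
private lemma half_N_B {N : ℝ × ℝ → ℝ} (hN : IsNorm N) (e : ℕ → ℤˣ) (l : ℕ) :
    N (cR (Blin e l)) = N (3, 0) := by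
  rw [Blin, cR_T']
  exact (hN.TR (e (l - 1))).2

/-- displacement in real coordinates -/
private lemma half_cR_disp (v : ℕ → ℤ × ℤ) (a : ℕ → ZMod 4) (e : ℕ → ℤˣ) (Y : ℕ → ℤ) (l : ℕ) :
    cR (disp v a e Y l) =
      cR (v l) + (Y (l + 1) : ℝ) • cR (Alin a e l) - (Y l : ℝ) • cR (Blin e l) := by
  rw [disp, cR_sub, cR_add, cR_smul, cR_smul]

/-- A9: the shift of the crossing positions with `z` at the crossing `i`. Proof: `θ := z / (z - Y i) ∈ (0,1]`, `h := z / (M ζ i)`, `zr l := θ (M h ζ l - Y l)`, `Z l := round (zr l)` (`Z 0 = 0`, `Z (m+1) = 0`, `Z i = z` hold exactly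
since `zr i = z`). `plane_lemma` for the plane `l` with `v = cR (v l)`; `dot lam (zr(l+1) A - zr l B) = zr (l+1) c (l+1) - zr l c l` (for `l = m` use `zr (m+1) = 0`, for `l = 0` use `zr 0 = 0`);
the rounding changes `N` by at most `N A + N B ≤ 2 N (3,0)` (entries of `A`, `B` are rotations of `(3,0)`, `(2,2)`). -/
theorem shift_exists (N : ℝ × ℝ → ℝ) (hN : IsNorm N) {m n : ℕ} {a : ℕ → ZMod 4} {e : ℕ → ℤˣ} {c ζ : ℕ → ℝ}
    {lam V : ℕ → ℝ × ℝ} {H δ : ℝ} (hδ : 0 ≤ δ) (hC : Config N m n a e c ζ lam V H δ) (M C0 : ℝ) (hM : 0 < M)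
    (v : ℕ → ℤ × ℤ) (hv : ∀ l, l ≤ m → N (cR (v l) - M • V l) ≤ C0)
    (Y : ℕ → ℤ) (hY0 : Y 0 = 0) (hYm : Y (m + 1) = 0) (i : ℕ) (hi1 : 1 ≤ i) (him : i ≤ m)
    (z : ℤ) (hz : z ≠ 0) (hzY : z * Y i ≤ 0) (hzH : |(z : ℝ)| ≤ H * M * |ζ i|) :
    ∃ (Z : ℕ → ℤ) (zr : ℕ → ℝ), Z 0 = 0 ∧ Z (m + 1) = 0 ∧ Z i = z ∧ zr 0 = 0 ∧ zr (m + 1) = 0 ∧ zr i = z ∧
      (∀ l, |(Z l : ℝ)| ≤ |(Y l : ℝ)| + |(z : ℝ)| * |ζ l / ζ i| + 1) ∧
      ∀ l, l ≤ m → N (cR (disp v a e (fun k => Y k + Z k) l)) ≤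
        N (cR (disp v a e Y l)) + (zr (l + 1) * c (l + 1) - zr l * c l) + δ * M + (2 * C0 + 2 * N (3, 0)) := by
  obtain ⟨hzi, hτ⟩ : ζ i ≠ 0 ∧ 0 < N (3, 0) := ⟨hC.zne i hi1 him, hN.tau_pos⟩
  have hzR : (z : ℝ) ≠ 0 := by exact_mod_cast hz
  have hzYR : (z : ℝ) * (Y i : ℝ) ≤ 0 := by exact_mod_cast hzY
  have hz2 : 0 < (z : ℝ) ^ 2 := by positivity
  have hzz : 0 < (z : ℝ) * ((z : ℝ) - (Y i : ℝ)) := by nlinarith
  have hzY0 : (z : ℝ) - (Y i : ℝ) ≠ 0 := by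
    intro h
    rw [h, mul_zero] at hzz
    exact lt_irrefl _ hzz
  set θ : ℝ := (z : ℝ) / ((z : ℝ) - (Y i : ℝ)) with hθ
  set h : ℝ := (z : ℝ) / (M * ζ i) with hh
  have hθe : θ = (z : ℝ) ^ 2 / ((z : ℝ) * ((z : ℝ) - (Y i : ℝ))) := by
    rw [hθ, pow_two, mul_div_mul_left _ _ hzR]
  have hθ0 : 0 ≤ θ := by rw [hθe]; positivity
  have hθ1 : θ ≤ 1 := by
    rw [hθe, div_le_one hzz]
    nlinarith
  have hθz : θ * ((z : ℝ) - (Y i : ℝ)) = z := by
    rw [hθ, div_mul_cancel₀ _ hzY0]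
  have hMζ : M * ζ i ≠ 0 := mul_ne_zero hM.ne' hzi
  have hMh : M * h * ζ i = z := by
    rw [hh]
    field_simp
  have hζi : 0 < |ζ i| := abs_pos.2 hzi
  have hhH : |h| ≤ H := by
    rw [hh, abs_div, abs_mul, abs_of_pos hM, div_le_iff₀ (mul_pos hM hζi)]
    calc |(z : ℝ)| ≤ H * M * |ζ i| := hzH
      _ = H * (M * |ζ i|) := by ring
  have hr0 : θ * (M * h * ζ 0 - (Y 0 : ℝ)) = 0 := by
    rw [hC.z0, hY0]; simp
  have hrm : θ * (M * h * ζ (m + 1) - (Y (m + 1) : ℝ)) = 0 := by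
    rw [hC.zm, hYm]; simp
  have hri : θ * (M * h * ζ i - (Y i : ℝ)) = z := by
    rw [hMh, hθz]
  refine ⟨fun l => round (θ * (M * h * ζ l - (Y l : ℝ))), fun l => θ * (M * h * ζ l - (Y l : ℝ)),
    ?_, ?_, ?_, hr0, hrm, hri, ?_, ?_⟩
  · show round (θ * (M * h * ζ 0 - (Y 0 : ℝ))) = 0
    rw [hr0, round_zero]
  · show round (θ * (M * h * ζ (m + 1) - (Y (m + 1) : ℝ))) = 0
    rw [hrm, round_zero]
  · show round (θ * (M * h * ζ i - (Y i : ℝ))) = z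
    rw [hri, round_intCast]
  · intro l
    show |((round (θ * (M * h * ζ l - (Y l : ℝ))) : ℤ) : ℝ)| ≤ _
    have h1 := abs_sub_round (θ * (M * h * ζ l - (Y l : ℝ)))
    have h2 : |((round (θ * (M * h * ζ l - (Y l : ℝ))) : ℤ) : ℝ)| ≤
        |θ * (M * h * ζ l - (Y l : ℝ))| + 1 / 2 := by
      have h3 := abs_sub_abs_le_abs_sub
        ((round (θ * (M * h * ζ l - (Y l : ℝ))) : ℤ) : ℝ) (θ * (M * h * ζ l - (Y l : ℝ)))
      rw [abs_sub_comm] at h3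
      linarith
    have h4 : |θ * (M * h * ζ l - (Y l : ℝ))| ≤ |M * h * ζ l - (Y l : ℝ)| := by
      rw [abs_mul, abs_of_nonneg hθ0]
      calc θ * |M * h * ζ l - (Y l : ℝ)| ≤ 1 * |M * h * ζ l - (Y l : ℝ)| :=
            mul_le_mul_of_nonneg_right hθ1 (abs_nonneg _)
        _ = _ := one_mul _
    have h5 : |M * h * ζ l - (Y l : ℝ)| ≤ |M * h * ζ l| + |(Y l : ℝ)| := abs_sub _ _
    have h6 : M * h * ζ l = (z : ℝ) * (ζ l / ζ i) := by
      rw [hh]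
      field_simp
    rw [h6, abs_mul] at h5
    rw [h6] at h4
    rw [h6] at h2
    rw [h6]
    linarith
  · intro l hl
    show N (cR (disp v a e (fun k => Y k + round (θ * (M * h * ζ k - (Y k : ℝ)))) l)) ≤
      N (cR (disp v a e Y l)) +
        ((θ * (M * h * ζ (l + 1) - (Y (l + 1) : ℝ))) * c (l + 1) -
          (θ * (M * h * ζ l - (Y l : ℝ))) * c l) + δ * M + (2 * C0 + 2 * N (3, 0))
    have hp := plane_lemma N hN (lam l) (V l) (cR (v l)) (cR (Alin a e l)) (cR (Blin e l))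
      (ζ l) (ζ (l + 1)) h M δ (Y l : ℝ) (Y (l + 1) : ℝ) θ (hC.lamN l hl) hM.le hθ0 hθ1 hδ
      (hC.near l hl h hhH)
    rw [← half_cR_disp] at hp
    have hd : dot (lam l) ((θ * (M * h * ζ (l + 1) - (Y (l + 1) : ℝ))) • cR (Alin a e l) -
        (θ * (M * h * ζ l - (Y l : ℝ))) • cR (Blin e l)) =
        (θ * (M * h * ζ (l + 1) - (Y (l + 1) : ℝ))) * c (l + 1) -
          (θ * (M * h * ζ l - (Y l : ℝ))) * c l := by
      rw [dot_sub, dot_smul, dot_smul]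
      have e1 : (θ * (M * h * ζ (l + 1) - (Y (l + 1) : ℝ))) * dot (lam l) (cR (Alin a e l)) =
          (θ * (M * h * ζ (l + 1) - (Y (l + 1) : ℝ))) * c (l + 1) := by
        rcases Nat.lt_or_ge l m with hlm | hlm
        · rw [hC.lamA l hlm]
        · have hlm' : l = m := le_antisymm hl hlm
          subst hlm'
          rw [hrm, zero_mul, zero_mul]
      have e2 : (θ * (M * h * ζ l - (Y l : ℝ))) * dot (lam l) (cR (Blin e l)) =
          (θ * (M * h * ζ l - (Y l : ℝ))) * c l := by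
        rcases Nat.eq_zero_or_pos l with hl0 | hl0
        · subst hl0
          rw [hr0, zero_mul, zero_mul]
        · rw [hC.lamB l hl0 hl]
      rw [e1, e2]
    have hvl := hv l hl
    set r1 : ℝ := θ * (M * h * ζ (l + 1) - (Y (l + 1) : ℝ)) with hr1
    set r0 : ℝ := θ * (M * h * ζ l - (Y l : ℝ)) with hr0'
    have hsplit : cR (disp v a e (fun k => Y k + round (θ * (M * h * ζ k - (Y k : ℝ)))) l) =
        (cR (disp v a e Y l) + (r1 • cR (Alin a e l) - r0 • cR (Blin e l))) +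
          ((((round r1 : ℤ) : ℝ) - r1) • cR (Alin a e l) -
            (((round r0 : ℤ) : ℝ) - r0) • cR (Blin e l)) := by
      rw [half_cR_disp, half_cR_disp]
      show cR (v l) + ((Y (l + 1) + round r1 : ℤ) : ℝ) • cR (Alin a e l) -
        ((Y l + round r0 : ℤ) : ℝ) • cR (Blin e l) = _
      push_cast
      ext <;> simp <;> ring
    have hN1 : N ((((round r1 : ℤ) : ℝ) - r1) • cR (Alin a e l)) ≤ 1 / 2 * N (3, 0) := by
      rw [hN.smul, half_N_A hN, abs_sub_comm]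
      exact mul_le_mul_of_nonneg_right (abs_sub_round r1) hτ.le
    have hN0 : N ((((round r0 : ℤ) : ℝ) - r0) • cR (Blin e l)) ≤ 1 / 2 * N (3, 0) := by
      rw [hN.smul, half_N_B hN, abs_sub_comm]
      exact mul_le_mul_of_nonneg_right (abs_sub_round r0) hτ.le
    have hN2 : N ((((round r1 : ℤ) : ℝ) - r1) • cR (Alin a e l) -
        (((round r0 : ℤ) : ℝ) - r0) • cR (Blin e l)) ≤ N (3, 0) := by
      rw [sub_eq_add_neg]
      refine (hN.add _ _).trans ?_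
      rw [hN.neg]
      linarith
    have hN3 := hN.add (cR (disp v a e Y l) + (r1 • cR (Alin a e l) - r0 • cR (Blin e l)))
      ((((round r1 : ℤ) : ℝ) - r1) • cR (Alin a e l) -
        (((round r0 : ℤ) : ℝ) - r0) • cR (Blin e l))
    rw [← hsplit] at hN3
    rw [hd] at hp
    linarith

end AutGeo
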