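import Pool.Agent.AutGeo.A.Half

set_option autoImplicit false

namespace AutGeo

open Finset

/-- the two telescoping sums of `shift_exists` -/
theorem shift_sums (N : ℝ × ℝ → ℝ) (hN : IsNorm N) {m n : ℕ} {a : ℕ → ZMod 4} {e : ℕ → ℤˣ} {c ζ : ℕ → ℝ}
    {lam V : ℕ → ℝ × ℝ} {H δ : ℝ} (hδ : 0 ≤ δ) (hC : Config N m n a e c ζ lam V H δ) (M C0 : ℝ) (hM : 0 < M) (hC0 : 0 ≤ C0)
    (v : ℕ → ℤ × ℤ) (hv : ∀ l, l ≤ m → N (cR (v l) - M • V l) ≤ C0)
    (Y : ℕ → ℤ) (hY0 : Y 0 = 0) (hYm : Y (m + 1) = 0) (i : ℕ) (hi1 : 1 ≤ i) (him : i ≤ m)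
    (z : ℤ) (hz : z ≠ 0) (hzY : z * Y i ≤ 0) (hzH : |(z : ℝ)| ≤ H * M * |ζ i|) :
    ∃ Z : ℕ → ℤ, Z 0 = 0 ∧ Z (m + 1) = 0 ∧ Z i = z ∧
      (∀ l, |(Z l : ℝ)| ≤ |(Y l : ℝ)| + |(z : ℝ)| * |ζ l / ζ i| + 1) ∧
      (∑ l ∈ range i, N (cR (disp v a e (fun k => Y k + Z k) l)) ≤
        ∑ l ∈ range i, N (cR (disp v a e Y l)) + z * c i + (m + 1) * (δ * M + (2 * C0 + 2 * N (3, 0)))) ∧
      (∑ l ∈ Ico i (m + 1), N (cR (disp v a e (fun k => Y k + Z k) l)) ≤
        ∑ l ∈ Ico i (m + 1), N (cR (disp v a e Y l)) - z * c i + (m + 1) * (δ * M + (2 * C0 + 2 * N (3, 0)))) := by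
  obtain ⟨Z, zr, hZ0, hZm, hZi, hr0, hrm, hri, hZb, hZN⟩ :=
    shift_exists N hN hδ hC M C0 hM v hv Y hY0 hYm i hi1 him z hz hzY hzH
  have hτ := hN.tau_pos
  set K : ℝ := δ * M + (2 * C0 + 2 * N (3, 0)) with hK
  have hK0 : 0 ≤ K := by
    rw [hK]
    have : 0 ≤ δ * M := mul_nonneg hδ hM.le
    linarith
  have htel : ∀ k : ℕ, ∑ l ∈ range k, (zr (l + 1) * c (l + 1) - zr l * c l) =
      zr k * c k - zr 0 * c 0 := fun k => Finset.sum_range_sub (fun l => zr l * c l) k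
  refine ⟨Z, hZ0, hZm, hZi, hZb, ?_, ?_⟩
  · have h1 : ∑ l ∈ range i, N (cR (disp v a e (fun k => Y k + Z k) l)) ≤
        ∑ l ∈ range i, (N (cR (disp v a e Y l)) + (zr (l + 1) * c (l + 1) - zr l * c l) + K) := by
      refine Finset.sum_le_sum fun l hl => ?_
      have hl' : l ≤ m := by
        have := Finset.mem_range.1 hl
        omega
      have h2 := hZN l hl'
      rw [hK]
      linarith
    rw [Finset.sum_add_distrib, Finset.sum_add_distrib, htel i, hr0, hri, Finset.sum_const,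
      Finset.card_range, nsmul_eq_mul] at h1
    have h3 : (i : ℝ) * K ≤ (m + 1) * K := by
      refine mul_le_mul_of_nonneg_right ?_ hK0
      have : (i : ℝ) ≤ (m : ℝ) := by exact_mod_cast him
      linarith
    linarith
  · have h1 : ∑ l ∈ Ico i (m + 1), N (cR (disp v a e (fun k => Y k + Z k) l)) ≤
        ∑ l ∈ Ico i (m + 1),
          (N (cR (disp v a e Y l)) + (zr (l + 1) * c (l + 1) - zr l * c l) + K) := by
      refine Finset.sum_le_sum fun l hl => ?_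
      have hl' : l ≤ m := by
        have := (Finset.mem_Ico.1 hl).2
        omega
      have h2 := hZN l hl'
      rw [hK]
      linarith
    have h4 : ∑ l ∈ Ico i (m + 1), (zr (l + 1) * c (l + 1) - zr l * c l) =
        zr (m + 1) * c (m + 1) - zr i * c i := by
      rw [Finset.sum_Ico_eq_sub _ (by omega : i ≤ m + 1), htel, htel]
      ring
    rw [Finset.sum_add_distrib, Finset.sum_add_distrib, h4, hrm, hri, Finset.sum_const,
      Nat.card_Ico, nsmul_eq_mul] at h1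
    have h3 : ((m + 1 - i : ℕ) : ℝ) * K ≤ (m + 1) * K := by
      refine mul_le_mul_of_nonneg_right ?_ hK0
      have : ((m + 1 - i : ℕ) : ℝ) ≤ ((m + 1 : ℕ) : ℝ) := by
        exact_mod_cast Nat.sub_le _ _
      push_cast at this
      linarith
    linarith

end AutGeo
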