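import Pool.Agent.AutGeo.ADefs

set_option autoImplicit false

namespace AutGeo

private lemma rotR_z0 (x : ℝ × ℝ) : rotR 0 x = x := by simp [rotR]

private lemma rotR_z1 (x : ℝ × ℝ) : rotR 1 x = (-x.2, x.1) := by
  have h : (1 : ZMod 4) ≠ 0 := by decide
  unfold rotR
  rw [if_neg h, if_pos rfl]

private lemma rotR_z2 (x : ℝ × ℝ) : rotR 2 x = (-x.1, -x.2) := by
  have h : (2 : ZMod 4) ≠ 0 := by decide
  have h' : (2 : ZMod 4) ≠ 1 := by decide
  unfold rotR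
  rw [if_neg h, if_neg h', if_pos rfl]

private lemma rotR_z3 (x : ℝ × ℝ) : rotR 3 x = (x.2, -x.1) := by
  have h : (3 : ZMod 4) ≠ 0 := by decide
  have h' : (3 : ZMod 4) ≠ 1 := by decide
  have h'' : (3 : ZMod 4) ≠ 2 := by decide
  unfold rotR
  rw [if_neg h, if_neg h', if_neg h'']

private lemma zmod4_casesR (a : ZMod 4) : a = 0 ∨ a = 1 ∨ a = 2 ∨ a = 3 := by
  revert a; decide

lemma dot_rotR (a : ZMod 4) (l x : ℝ × ℝ) : dot (rotR a l) (rotR a x) = dot l x := by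
  rcases zmod4_casesR a with rfl | rfl | rfl | rfl
  · simp only [rotR_z0]
  · simp only [rotR_z1, dot]; ring
  · simp only [rotR_z2, dot]; ring
  · simp only [rotR_z3, dot]; ring

lemma rotR_rotR (a b : ZMod 4) (x : ℝ × ℝ) : rotR (a + b) x = rotR a (rotR b x) := by
  have e11 : (1 + 1 : ZMod 4) = 2 := by decide
  have e12 : (1 + 2 : ZMod 4) = 3 := by decide
  have e13 : (1 + 3 : ZMod 4) = 0 := by decide
  have e21 : (2 + 1 : ZMod 4) = 3 := by decide
  have e22 : (2 + 2 : ZMod 4) = 0 := by decide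
  have e23 : (2 + 3 : ZMod 4) = 1 := by decide
  have e31 : (3 + 1 : ZMod 4) = 0 := by decide
  have e32 : (3 + 2 : ZMod 4) = 1 := by decide
  have e33 : (3 + 3 : ZMod 4) = 2 := by decide
  rcases zmod4_casesR a with rfl | rfl | rfl | rfl <;>
    rcases zmod4_casesR b with rfl | rfl | rfl | rfl <;>
    simp only [zero_add, add_zero, e11, e12, e13, e21, e22, e23, e31, e32, e33,
      rotR_z0, rotR_z1, rotR_z2, rotR_z3, neg_neg, Prod.mk.eta]

lemma IsNorm.rotR {N : ℝ × ℝ → ℝ} (hN : IsNorm N) (a : ZMod 4) (x : ℝ × ℝ) :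
    N (rotR a x) = N x := by
  have e11 : (2 : ZMod 4) = 1 + 1 := by decide
  have e12 : (3 : ZMod 4) = 1 + 2 := by decide
  have h2 : ∀ y, N (AutGeo.rotR 2 y) = N y := by
    intro y
    rw [e11, rotR_rotR, hN.rot, hN.rot]
  rcases zmod4_casesR a with rfl | rfl | rfl | rfl
  · rw [rotR_z0]
  · exact hN.rot x
  · exact h2 x
  · rw [e12, rotR_rotR, hN.rot, h2]

lemma IsNorm.TR {N : ℝ × ℝ → ℝ} (hN : IsNorm N) (e : ℤˣ) :
    N (TR e) = N (3, 0) ∧ N (TR' e) = N (3, 0) := by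
  have h := hN.uw
  have h1 : (-1 : ℤˣ) ≠ 1 := by decide
  rcases Int.units_eq_one_or e with rfl | rfl
  · constructor
    · unfold AutGeo.TR; rw [if_pos rfl]
    · unfold AutGeo.TR'; rw [if_pos rfl, h]
  · constructor
    · unfold AutGeo.TR; rw [if_neg h1, h]
    · unfold AutGeo.TR'; rw [if_neg h1]

lemma IsNorm.tau_pos {N : ℝ × ℝ → ℝ} (hN : IsNorm N) : 0 < N (3, 0) := by
  apply hN.pos
  intro h
  have := congrArg Prod.fst h
  norm_num at this

lemma IsNorm.zero {N : ℝ × ℝ → ℝ} (hN : IsNorm N) : N 0 = 0 := by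
  have h := hN.smul 0 0
  rw [smul_zero, abs_zero, zero_mul] at h
  exact h

lemma IsNorm.neg {N : ℝ × ℝ → ℝ} (hN : IsNorm N) (x : ℝ × ℝ) : N (-x) = N x := by
  have h := hN.smul (-1) x
  rw [abs_neg, abs_one, one_mul, neg_smul, one_smul] at h
  exact h

/-- functionals below `N` are bounded by `N` in absolute value -/
lemma abs_dot_le {N : ℝ × ℝ → ℝ} (hN : IsNorm N) {l : ℝ × ℝ} (hl : ∀ x, dot l x ≤ N x)
    (x : ℝ × ℝ) : |dot l x| ≤ N x := by
  rw [abs_le]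
  refine ⟨?_, hl x⟩
  have h := hl (-x)
  rw [dot_neg, hN.neg] at h
  linarith

lemma Sstar_rot {N : ℝ × ℝ → ℝ} (hN : IsNorm N) {l : ℝ × ℝ} (hl : l ∈ Sstar N) (a : ZMod 4) :
    rotR a l ∈ Sstar N := by
  obtain ⟨h1, x, hx, h2⟩ := hl
  have key : ∀ y : ℝ × ℝ, rotR a (rotR (-a) y) = y := by
    intro y
    rw [← rotR_rotR, add_neg_cancel, rotR_z0]
  refine ⟨?_, rotR a x, ?_, ?_⟩
  · intro y
    have h := h1 (rotR (-a) y)
    rw [hN.rotR (-a) y] at h
    rw [← key y, dot_rotR, key y]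
    exact h
  · intro h0
    apply hx
    have hp : N x = 0 := by rw [← hN.rotR a x, h0, hN.zero]
    by_contra hne
    exact absurd hp (ne_of_gt (hN.pos x hne))
  · rw [dot_rotR, h2, hN.rotR]

lemma Sstar_ne_zero {N : ℝ × ℝ → ℝ} (hN : IsNorm N) {l : ℝ × ℝ} (hl : l ∈ Sstar N) : l ≠ 0 := by
  rintro rfl
  obtain ⟨_, x, hx, h2⟩ := hl
  have h := hN.pos x hx
  rw [← h2] at h
  simp [dot] at h

end AutGeo
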