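import Pool.Agent.AutGeo.A.TwoFun
import Pool.Agent.AutGeo.A.SstarRot

set_option autoImplicit false

namespace AutGeo

/-- every state has finitely many successors: two functionals, four rotations, two signs -/
theorem succ_finite (N : ℝ × ℝ → ℝ) (hN : IsNorm N) (x : ℝ × ℤˣ) (hx : |x.1| < N (3, 0)) :
    {y | StStep N x y}.Finite := by
  have hne : TR' x.2 ≠ 0 := by
    rcases Int.units_eq_one_or x.2 with h | h
    · simp [TR', h, Prod.ext_iff]
    · simp [TR', h, Prod.ext_iff]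
  have hlt : |x.1| < N (TR' x.2) := by rw [(hN.TR x.2).2]; exact hx
  obtain ⟨l₁, l₂, -, h⟩ := two_functionals N hN (TR' x.2) hne x.1 hlt
  have hfin : {l | l ∈ Sstar N ∧ dot l (TR' x.2) = x.1}.Finite := by
    rw [h]; exact Set.toFinite _
  have hprod : (({l | l ∈ Sstar N ∧ dot l (TR' x.2) = x.1} ×ˢ (Set.univ : Set (ZMod 4))) ×ˢ
      (Set.univ : Set ℤˣ)).Finite := by
    exact (hfin.prod (Set.toFinite _)).prod (Set.toFinite _)
  refine (hprod.image fun q : ((ℝ × ℝ) × ZMod 4) × ℤˣ =>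
    ((dot q.1.1 (rotR q.1.2 (TR q.2)), q.2) : ℝ × ℤˣ)).subset ?_
  rintro y ⟨-, l, hl, a, h1, h2⟩
  exact ⟨((l, a), y.2), ⟨⟨⟨hl, h1⟩, Set.mem_univ _⟩, Set.mem_univ _⟩, Prod.ext h2 rfl⟩

end AutGeo
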