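import Pool.Agent.AutGeo.A.SstarRot

set_option autoImplicit false

namespace AutGeo

/-- A9, the plane lemma (pure convexity): `v' + z₁A - z₀B = (1-θ) v' + θ (v + M h (ζ₁A - ζ₀B))`. -/
theorem plane_lemma (N : ℝ × ℝ → ℝ) (hN : IsNorm N) (lam V v A B : ℝ × ℝ) (ζ₀ ζ₁ h M δ Y₀ Y₁ θ : ℝ)
    (hlam : ∀ x, dot lam x ≤ N x) (hM : 0 ≤ M) (hθ0 : 0 ≤ θ) (hθ1 : θ ≤ 1) (hδ : 0 ≤ δ)
    (hnear : N (V + h • (ζ₁ • A - ζ₀ • B)) ≤ dot lam (V + h • (ζ₁ • A - ζ₀ • B)) + δ) :
    N (v + Y₁ • A - Y₀ • B + ((θ * (M * h * ζ₁ - Y₁)) • A - (θ * (M * h * ζ₀ - Y₀)) • B)) ≤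
      N (v + Y₁ • A - Y₀ • B) + dot lam ((θ * (M * h * ζ₁ - Y₁)) • A - (θ * (M * h * ζ₀ - Y₀)) • B) +
        δ * M + 2 * N (v - M • V) := by
  set v' := v + Y₁ • A - Y₀ • B with hv'
  set W := V + h • (ζ₁ • A - ζ₀ • B) with hW
  set x := (θ * (M * h * ζ₁ - Y₁)) • A - (θ * (M * h * ζ₀ - Y₀)) • B with hx
  have e1 : v' + x = (1 - θ) • v' + θ • (M • W + (v - M • V)) := by
    rw [hv', hx, hW]
    ext <;> simp <;> ring
  have e2 : x = θ • (M • W + (v - M • V) - v') := by
    rw [hv', hx, hW]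
    ext <;> simp <;> ring
  have n1 : N ((1 - θ) • v') = (1 - θ) * N v' := by
    rw [hN.smul, abs_of_nonneg (by linarith)]
  have n2 : N (θ • (M • W + (v - M • V))) = θ * N (M • W + (v - M • V)) := by
    rw [hN.smul, abs_of_nonneg hθ0]
  have n3 : N (M • W + (v - M • V)) ≤ M * N W + N (v - M • V) := by
    have := hN.add (M • W) (v - M • V)
    rwa [hN.smul, abs_of_nonneg hM] at this
  have n4 : N (v' + x) ≤ (1 - θ) * N v' + θ * N (M • W + (v - M • V)) := by
    rw [e1]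
    have := hN.add ((1 - θ) • v') (θ • (M • W + (v - M • V)))
    rwa [n1, n2] at this
  have d1 : dot lam x = θ * (M * dot lam W + dot lam (v - M • V) - dot lam v') := by
    conv_lhs => rw [e2]
    rw [dot_smul, dot_sub, dot_add, dot_smul]
  have h1 := hlam v'
  have hneg : N (-(v - M • V)) = N (v - M • V) := by
    have := hN.smul (-1) (v - M • V)
    rw [neg_one_smul] at this
    rw [this]; simp
  have h2 := hlam (-(v - M • V))
  rw [dot_neg, hneg] at h2
  have hNn : 0 ≤ N (v - M • V) := by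
    have := hN.add (v - M • V) (-(v - M • V))
    have hz : N (0 : ℝ × ℝ) = 0 := by
      have := hN.smul 0 (0 : ℝ × ℝ)
      simpa using this
    rw [add_neg_cancel, hz, hneg] at this
    linarith
  have h3 : M * N W ≤ M * (dot lam W + δ) := mul_le_mul_of_nonneg_left hnear hM
  have h4 : N (M • W + (v - M • V)) - dot lam (M • W + (v - M • V)) ≤ δ * M + 2 * N (v - M • V) := by
    rw [dot_add, dot_smul]
    nlinarith
  rw [dot_add, dot_smul] at h4
  have h5 : θ * (N (M • W + (v - M • V)) - (M * dot lam W + dot lam (v - M • V))) ≤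
      δ * M + 2 * N (v - M • V) := by
    have hb : 0 ≤ δ * M + 2 * N (v - M • V) := by positivity
    rcases le_total 0 (N (M • W + (v - M • V)) - (M * dot lam W + dot lam (v - M • V))) with hc | hc
    · calc θ * (N (M • W + (v - M • V)) - (M * dot lam W + dot lam (v - M • V)))
          ≤ 1 * (N (M • W + (v - M • V)) - (M * dot lam W + dot lam (v - M • V))) :=
            mul_le_mul_of_nonneg_right hθ1 hc
        _ ≤ _ := by linarith
    · have := mul_nonpos_of_nonneg_of_nonpos hθ0 hc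
      linarith
  have h6 : 0 ≤ θ * (N v' - dot lam v') := mul_nonneg hθ0 (by linarith)
  rw [d1]
  nlinarith
end AutGeo
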