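import Pool.Agent.AutGeo.A.SstarRot

set_option autoImplicit false

namespace AutGeo

/-- A vector where `|dot l A| < N A` is not parallel to a vector `V ≠ 0` with `dot l V = N V`. -/
private lemma cross_ne_zero_of_lt (N : ℝ × ℝ → ℝ) (hN : IsNorm N) (l A V : ℝ × ℝ)
    (hV0 : V ≠ 0) (hV : dot l V = N V) (hA : |dot l A| < N A) :
    A.1 * V.2 - A.2 * V.1 ≠ 0 := by
  intro hD
  have hpar : ∃ r : ℝ, A = r • V := by
    by_cases h1 : V.1 = 0
    · have h2 : V.2 ≠ 0 := fun h => hV0 (Prod.ext h1 h)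
      refine ⟨A.2 / V.2, Prod.ext ?_ ?_⟩
      · simp only [Prod.smul_fst, smul_eq_mul]
        rw [h1, mul_zero, sub_zero] at hD
        rw [h1, mul_zero]
        exact (mul_eq_zero.mp hD).resolve_right h2
      · simp only [Prod.smul_snd, smul_eq_mul]
        field_simp
    · refine ⟨A.1 / V.1, Prod.ext ?_ ?_⟩
      · simp only [Prod.smul_fst, smul_eq_mul]
        field_simp
      · simp only [Prod.smul_snd, smul_eq_mul]
        field_simp
        linarith
  obtain ⟨r, hr⟩ := hpar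
  have hpos : 0 < N V := hN.pos V hV0
  rw [hr, dot_smul, hN.smul, hV, abs_mul, abs_of_pos hpos] at hA
  exact lt_irrefl _ hA

/-- one plane of the configuration: a functional of the dual sphere, a vector `V` where it attains
the norm, not parallel to the two lines `A`, `B`, and the rigid variation: `q • A - B = s • V`,
`q ≠ 0`. Proof: `l ∈ Sstar`: `V ≠ 0` with `dot l V = N V`. If `A = r • V` then
`N A = |r| N V = |dot l A| < N A`. So `A, V` is a basis of the plane (determinant ≠ 0),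
`B = q A - s V` (Cramer), `q ≠ 0` since `B` is not parallel to `V` (`B ≠ 0` as `|c| < N B`). -/
theorem plane_rigid (N : ℝ × ℝ → ℝ) (hN : IsNorm N) (l A B : ℝ × ℝ) (hl : l ∈ Sstar N)
    (hA : |dot l A| < N A) (hB : |dot l B| < N B) :
    ∃ (V : ℝ × ℝ) (q s : ℝ), V ≠ 0 ∧ dot l V = N V ∧ (∀ r : ℝ, V ≠ r • B) ∧ q ≠ 0 ∧
      q • A - B = s • V := by
  obtain ⟨-, V, hV0, hV⟩ := hl
  have hDA := cross_ne_zero_of_lt N hN l A V hV0 hV hA
  have hDB := cross_ne_zero_of_lt N hN l B V hV0 hV hB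
  refine ⟨V, (B.1 * V.2 - B.2 * V.1) / (A.1 * V.2 - A.2 * V.1),
    (B.1 * A.2 - B.2 * A.1) / (A.1 * V.2 - A.2 * V.1), hV0, hV, ?_, div_ne_zero hDB hDA, ?_⟩
  · intro r hr
    apply hDB
    rw [hr]
    simp only [Prod.smul_fst, Prod.smul_snd, smul_eq_mul]
    ring
  · obtain ⟨D, hD⟩ : ∃ D : ℝ, D = A.1 * V.2 - A.2 * V.1 := ⟨_, rfl⟩
    rw [← hD] at hDA ⊢
    ext
    · simp only [Prod.fst_sub, Prod.smul_fst, smul_eq_mul]
      field_simp
      rw [hD]
      ring
    · simp only [Prod.snd_sub, Prod.smul_snd, smul_eq_mul]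
      field_simp
      rw [hD]
      ring

end AutGeo
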