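import Pool.Agent.AutGeo.ADefs

set_option autoImplicit false

/-!
# The stable norm: definitions (A2)
-/

namespace AutGeo

open Filter Topology

/-- integer vector near `k x` -/
noncomputable def fl (k : ℕ) (x : ℝ × ℝ) : ℤ × ℤ := (⌊(k : ℝ) * x.1⌋, ⌊(k : ℝ) * x.2⌋)

/-- `N` is the stable norm of `p` -/
def IsStable (p : ℤ × ℤ → ℝ) (N : ℝ × ℝ → ℝ) : Prop :=
  ∀ x, Tendsto (fun k : ℕ => p (fl k x) / k) atTop (𝓝 (N x))

lemma PHyp.nonneg {p : ℤ × ℤ → ℝ} (hp : PHyp p) (v : ℤ × ℤ) : 0 ≤ p v := by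
  obtain ⟨c, hc, h⟩ := hp.pos
  have := h v
  have h2 : 0 ≤ c * (|(v.1 : ℝ)| + |(v.2 : ℝ)|) := by positivity
  linarith

lemma PHyp.nsmul {p : ℤ × ℤ → ℝ} (hp : PHyp p) (n : ℕ) (v : ℤ × ℤ) : p (n • v) ≤ n * p v := by
  induction n with
  | zero => simp [hp.zero]
  | succ n ih =>
    rw [add_smul, one_smul]
    push_cast
    have := hp.add (n • v) v
    linarith

lemma PHyp.zsmul {p : ℤ × ℤ → ℝ} (hp : PHyp p) (n : ℤ) (v : ℤ × ℤ) : p (n • v) ≤ |(n : ℝ)| * p v := by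
  rcases le_total 0 n with h | h
  · lift n to ℕ using h
    have := hp.nsmul n v
    simpa using this
  · obtain ⟨m, rfl⟩ : ∃ m : ℕ, n = -(m : ℤ) := ⟨n.natAbs, by omega⟩
    have := hp.nsmul m v
    rw [neg_smul, hp.neg]
    simpa using this

/-- `p` is Lipschitz: `p v ≤ K (|v₁| + |v₂|)` -/
lemma PHyp.lip {p : ℤ × ℤ → ℝ} (hp : PHyp p) :
    ∃ K : ℝ, 0 ≤ K ∧ ∀ v : ℤ × ℤ, p v ≤ K * (|(v.1 : ℝ)| + |(v.2 : ℝ)|) := by
  refine ⟨p (1, 0) + p (0, 1), add_nonneg (hp.nonneg _) (hp.nonneg _), fun v => ?_⟩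
  have h : v = v.1 • ((1, 0) : ℤ × ℤ) + v.2 • ((0, 1) : ℤ × ℤ) := by ext <;> simp
  have h1 := hp.add (v.1 • ((1, 0) : ℤ × ℤ)) (v.2 • ((0, 1) : ℤ × ℤ))
  rw [← h] at h1
  have h2 := hp.zsmul v.1 (1, 0)
  have h3 := hp.zsmul v.2 (0, 1)
  have h4 := hp.nonneg (1, 0)
  have h5 := hp.nonneg (0, 1)
  nlinarith [abs_nonneg (v.1 : ℝ), abs_nonneg (v.2 : ℝ)]

/-- `p v` and `p w` differ by at most `K |v - w|` -/
lemma PHyp.sub_le {p : ℤ × ℤ → ℝ} (hp : PHyp p) (v w : ℤ × ℤ) : p v ≤ p w + p (v - w) := by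
  have := hp.add w (v - w)
  simpa using this

end AutGeo
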