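import Pool.Agent.AutGeo.A.SNDefs

set_option autoImplicit false

namespace AutGeo

open Filter Topology

private lemma floor_split (a b : ℝ) : 0 ≤ ⌊a + b⌋ - ⌊a⌋ - ⌊b⌋ ∧ ⌊a + b⌋ - ⌊a⌋ - ⌊b⌋ ≤ 1 := by
  have h1 := Int.le_floor_add a b
  have h2 := Int.le_floor_add_floor a b
  constructor <;> omega

/-- Existence of the stable norm. Proof: let `D` bound `p` on the finitely many vectors with entries in `{-1,0,1}` (e.g. `D = 2K` from `PHyp.lip`).
`fl (j+k) x - fl j x - fl k x` has entries in `{0,1}` (floor of a sum), so `a k := p (fl k x) + D` is subadditive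
(`Subadditive a`), bounded below by 0, and `Subadditive.tendsto_lim` gives convergence of `a k / k`; `D / k → 0`. -/
theorem exists_stable (p : ℤ × ℤ → ℝ) (hp : PHyp p) : ∃ N : ℝ × ℝ → ℝ, IsStable p N := by
  obtain ⟨K, hK, hlip⟩ := hp.lip
  have key : ∀ x : ℝ × ℝ, ∃ L : ℝ, Tendsto (fun k : ℕ => p (fl k x) / k) atTop (𝓝 L) := by
    intro x
    have hsub : Subadditive (fun k : ℕ => p (fl k x) + 2 * K) := by
      intro m n
      have e : fl (m + n) x = fl m x + (fl n x + (fl (m + n) x - fl m x - fl n x)) := by abel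
      have hr1 := floor_split ((m : ℝ) * x.1) ((n : ℝ) * x.1)
      have hr2 := floor_split ((m : ℝ) * x.2) ((n : ℝ) * x.2)
      have hr : p (fl (m + n) x - fl m x - fl n x) ≤ 2 * K := by
        refine (hlip _).trans ?_
        have e1 : (fl (m + n) x - fl m x - fl n x).1 = ⌊(m : ℝ) * x.1 + (n : ℝ) * x.1⌋ - ⌊(m : ℝ) * x.1⌋ - ⌊(n : ℝ) * x.1⌋ := by
          simp only [fl, Prod.fst_sub]
          push_cast
          rw [add_mul]
        have e2 : (fl (m + n) x - fl m x - fl n x).2 = ⌊(m : ℝ) * x.2 + (n : ℝ) * x.2⌋ - ⌊(m : ℝ) * x.2⌋ - ⌊(n : ℝ) * x.2⌋ := by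
          simp only [fl, Prod.snd_sub]
          push_cast
          rw [add_mul]
        rw [e1, e2]
        have b1 : |((⌊(m : ℝ) * x.1 + (n : ℝ) * x.1⌋ - ⌊(m : ℝ) * x.1⌋ - ⌊(n : ℝ) * x.1⌋ : ℤ) : ℝ)| ≤ 1 := by
          rw [abs_le]
          constructor
          · have := (Int.cast_le (R := ℝ)).mpr hr1.1
            push_cast at this ⊢
            linarith
          · have := (Int.cast_le (R := ℝ)).mpr hr1.2
            push_cast at this ⊢
            linarith
        have b2 : |((⌊(m : ℝ) * x.2 + (n : ℝ) * x.2⌋ - ⌊(m : ℝ) * x.2⌋ - ⌊(n : ℝ) * x.2⌋ : ℤ) : ℝ)| ≤ 1 := by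
          rw [abs_le]
          constructor
          · have := (Int.cast_le (R := ℝ)).mpr hr2.1
            push_cast at this ⊢
            linarith
          · have := (Int.cast_le (R := ℝ)).mpr hr2.2
            push_cast at this ⊢
            linarith
        nlinarith
      have h1 := hp.add (fl m x) (fl n x + (fl (m + n) x - fl m x - fl n x))
      have h2 := hp.add (fl n x) (fl (m + n) x - fl m x - fl n x)
      rw [← e] at h1
      show p (fl (m + n) x) + 2 * K ≤ (p (fl m x) + 2 * K) + (p (fl n x) + 2 * K)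
      linarith
    have hbdd : BddBelow (Set.range fun n : ℕ => (p (fl n x) + 2 * K) / (n : ℝ)) := by
      refine ⟨0, ?_⟩
      rintro y ⟨n, rfl⟩
      have := hp.nonneg (fl n x)
      show 0 ≤ (p (fl n x) + 2 * K) / (n : ℝ)
      positivity
    refine ⟨hsub.lim, ?_⟩
    have h1 := hsub.tendsto_lim hbdd
    have h2 := tendsto_const_div_atTop_nhds_zero_nat (2 * K)
    have h3 := h1.sub h2
    rw [sub_zero] at h3
    refine h3.congr fun k => ?_
    show (p (fl k x) + 2 * K) / (k : ℝ) - 2 * K / (k : ℝ) = p (fl k x) / k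
    ring
  choose N hN using key
  exact ⟨N, hN⟩

end AutGeo
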