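import Pool.Agent.AutGeo.A.SNDefs

set_option autoImplicit false

namespace AutGeo

open Filter Topology

/-- `N ≤ p` on integer vectors: `fl k (cR v) = k • v`, `p (k • v) ≤ k p v`. -/
theorem stable_low (p : ℤ × ℤ → ℝ) (hp : PHyp p) (N : ℝ × ℝ → ℝ) (hN : IsStable p N) (v : ℤ × ℤ) :
    N (cR v) ≤ p v := by
  refine le_of_tendsto (hN (cR v)) ?_
  filter_upwards [eventually_ge_atTop 1] with k hk
  have hk0 : (0 : ℝ) < k := by exact_mod_cast hk
  have hfl : fl k (cR v) = k • v := by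
    have h : ∀ z : ℤ, ⌊(k : ℝ) * (z : ℝ)⌋ = (k : ℤ) * z := by
      intro z
      rw [show (k : ℝ) * (z : ℝ) = (((k : ℤ) * z : ℤ) : ℝ) by push_cast; ring]
      exact Int.floor_intCast _
    ext
    · show ⌊(k : ℝ) * (v.1 : ℝ)⌋ = _
      rw [h]
      simp
    · show ⌊(k : ℝ) * (v.2 : ℝ)⌋ = _
      rw [h]
      simp
  rw [hfl, div_le_iff₀ hk0, mul_comm]
  exact hp.nsmul k v

end AutGeo
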