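import Pool.Agent.AutGeo.A.SNDefs

set_option autoImplicit false

namespace AutGeo

open Filter Topology

/-- The stable norm is a rotation invariant norm with `N u = N w`. Proof: all from the limit.
add: `fl k (x+y) - fl k x - fl k y` is bounded, so `p (fl k (x+y)) ≤ p (fl k x) + p (fl k y) + D`; divide by `k`.
`N x ≤ K(|x.1|+|x.2|)` and `c(|x.1|+|x.2|) ≤ N x` (from `lip`, `pos`: pos of the norm). `N (-x) = N x` (floors differ by a bounded vector).
`N (j • x) = j N x` for natural `j ≥ 1`: `fl k (j x) = fl (k j) x`, subsequence of the limit. Rational, then real `r ≥ 0`: from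
`|N x - N y| ≤ N (x-y) ≤ K|x-y|` (continuity) - or directly: `N (r x) ≤ N ((⌊jr⌋/j) x) + K/j |x|` etc.
rot: `rotR 1`: `fl k (rotR 1 x)` and `rot 1 (fl k x)` differ by a bounded vector, and `p (rot 1 v)`, `p v` differ by `≤ C`.
uw: `fl k (3,0) = k • (3,0)`, `fl k (2,2) = k • (2,2)`. -/
theorem stable_isNorm (p : ℤ × ℤ → ℝ) (hp : PHyp p) (N : ℝ × ℝ → ℝ) (hN : IsStable p N) : IsNorm N := by
  sorry

end AutGeo
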