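import Pool.Agent.AutGeo.A.SNDefs

set_option autoImplicit false

namespace AutGeo

open Filter Topology

/-- Uniform upper bound. Proof: `K` from `lip`. Let `η > 0` be small (`η = ε/(8K+8)`), `F` the finite grid of points `(i/q, j/q)`, `|i|,|j| ≤ q`, `1/q ≤ η`.
By finiteness there is `k₀` with `p (fl k y) ≤ k (N y + η)` for all `y ∈ F`, `k ≥ k₀`.
For `v` with `k = max(|v.1|,|v.2|) ≥ k₀`, `k ≥ 1`: `x = v / k`, `y ∈ F` with `|x - y| ≤ η` in both coordinates. `v - fl k y` has entries at most `kη + 1`, so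
`p v ≤ p (fl k y) + 2K(kη+1) ≤ k N y + kη + 2K(kη+1)` and `k N y ≤ N (cR v) + k N (y - x) ≤ N (cR v) + 2Kkη` (`N x ≤ K(|x.1|+|x.2|)` from the limit).
For the finitely many `v` with `k < k₀` take `C` large. -/
theorem stable_up (p : ℤ × ℤ → ℝ) (hp : PHyp p) (N : ℝ × ℝ → ℝ) (hN : IsStable p N) (hNn : IsNorm N)
    (ε : ℝ) (hε : 0 < ε) :
    ∃ C : ℝ, ∀ v : ℤ × ℤ, p v ≤ N (cR v) + ε * (|(v.1 : ℝ)| + |(v.2 : ℝ)|) + C := by
  classical
  obtain ⟨K, hK, hlip⟩ := hp.lip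
  set K1 : ℝ := N (1, 0) + N (0, 1) with hK1
  have hK1nn : 0 ≤ K1 := by
    have h1 := hNn.pos (1, 0) (by simp)
    have h2 := hNn.pos (0, 1) (by simp)
    linarith
  have hNlip : ∀ x : ℝ × ℝ, N x ≤ K1 * (|x.1| + |x.2|) := by
    intro x
    have e : x = x.1 • ((1, 0) : ℝ × ℝ) + x.2 • ((0, 1) : ℝ × ℝ) := by
      ext <;> simp
    have h1 := hNn.add (x.1 • ((1, 0) : ℝ × ℝ)) (x.2 • ((0, 1) : ℝ × ℝ))
    rw [← e, hNn.smul, hNn.smul] at h1
    have h3 := (hNn.pos (1, 0) (by simp)).le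
    have h4 := (hNn.pos (0, 1) (by simp)).le
    have h5 := mul_nonneg (abs_nonneg x.1) h4
    have h6 := mul_nonneg (abs_nonneg x.2) h3
    have h7 : K1 * (|x.1| + |x.2|) = |x.1| * N (1, 0) + |x.2| * N (0, 1) +
        (|x.1| * N (0, 1) + |x.2| * N (1, 0)) := by
      rw [hK1]; ring
    linarith
  have hNnn : ∀ x : ℝ × ℝ, 0 ≤ N x := by
    intro x
    rcases eq_or_ne x 0 with rfl | h
    · have := hNn.smul 0 (0 : ℝ × ℝ)
      simp at this
      linarith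
    · exact (hNn.pos x h).le
  set η : ℝ := ε / (2 * K1 + 1 + 2 * K) with hη
  have hden : 0 < 2 * K1 + 1 + 2 * K := by positivity
  have hηpos : 0 < η := div_pos hε hden
  have hηε : η * (2 * K1 + 1 + 2 * K) = ε := by
    rw [hη]; field_simp
  obtain ⟨q0, hq0⟩ := exists_nat_gt (1 / η)
  have hqpos : (0 : ℝ) < q0 := lt_trans (by positivity) hq0
  have hqη : 1 / (q0 : ℝ) ≤ η := by
    rw [div_le_iff₀ hqpos]
    rw [div_lt_iff₀ hηpos] at hq0
    linarith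
  have hev : ∀ᶠ k : ℕ in atTop, ∀ ij ∈ (Finset.Icc (-(q0 : ℤ)) q0) ×ˢ (Finset.Icc (-(q0 : ℤ)) q0),
      p (fl k ((ij.1 : ℝ) / q0, (ij.2 : ℝ) / q0)) / k <
        N ((ij.1 : ℝ) / q0, (ij.2 : ℝ) / q0) + η := by
    rw [Filter.eventually_all_finset]
    intro ij _
    exact (hN ((ij.1 : ℝ) / q0, (ij.2 : ℝ) / q0)).eventually_lt_const (by linarith)
  obtain ⟨k0, hk0⟩ := eventually_atTop.mp hev
  refine ⟨2 * K + 2 * K * (k0 + 1), fun v => ?_⟩
  set k : ℕ := max v.1.natAbs v.2.natAbs with hk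
  have hv1 : |(v.1 : ℝ)| ≤ k := by
    rw [← Int.cast_abs, Int.abs_eq_natAbs]
    exact_mod_cast le_max_left v.1.natAbs v.2.natAbs
  have hv2 : |(v.2 : ℝ)| ≤ k := by
    rw [← Int.cast_abs, Int.abs_eq_natAbs]
    exact_mod_cast le_max_right v.1.natAbs v.2.natAbs
  have hkle : (k : ℝ) ≤ |(v.1 : ℝ)| + |(v.2 : ℝ)| := by
    rw [← Int.cast_abs, ← Int.cast_abs, Int.abs_eq_natAbs, Int.abs_eq_natAbs]
    have : k ≤ v.1.natAbs + v.2.natAbs := by
      rw [hk]; exact max_le (Nat.le_add_right _ _) (Nat.le_add_left _ _)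
    exact_mod_cast this
  have hε2 : 0 ≤ ε * (|(v.1 : ℝ)| + |(v.2 : ℝ)|) := by positivity
  by_cases hkk : k < k0 + 1
  · have h1 := hlip v
    have h2 : (k : ℝ) ≤ k0 + 1 := by exact_mod_cast hkk.le
    have h3 : K * (|(v.1 : ℝ)| + |(v.2 : ℝ)|) ≤ K * (2 * (k0 + 1)) := by
      apply mul_le_mul_of_nonneg_left _ hK
      linarith
    have h4 := hNnn (cR v)
    have h5 : K * (2 * ((k0 : ℝ) + 1)) = 2 * K * (k0 + 1) := by ring
    linarith
  · push Not at hkk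
    have hk1 : (0 : ℝ) < k := by
      have : 0 < k := by omega
      exact_mod_cast this
    have hkge : k0 ≤ k := by omega
    -- the grid point
    have grid : ∀ z : ℤ, |(z : ℝ)| ≤ k → ∃ i ∈ Finset.Icc (-(q0 : ℤ)) q0,
        (i : ℝ) / q0 ≤ z / k ∧ (z : ℝ) / k ≤ i / q0 + η := by
      intro z hz
      obtain ⟨hz1, hz2⟩ := abs_le.mp hz
      refine ⟨⌊(q0 : ℝ) * (z / k)⌋, ?_, ?_, ?_⟩
      · rw [Finset.mem_Icc]
        constructor
        · rw [Int.le_floor]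
          push_cast
          have : -1 ≤ (z : ℝ) / k := by rw [le_div_iff₀ hk1]; linarith
          nlinarith
        · have h1 : (⌊(q0 : ℝ) * (z / k)⌋ : ℝ) ≤ q0 * (z / k) := Int.floor_le _
          have h2 : (z : ℝ) / k ≤ 1 := by rw [div_le_iff₀ hk1]; linarith
          have h3 : (⌊(q0 : ℝ) * (z / k)⌋ : ℝ) ≤ q0 := by nlinarith
          exact_mod_cast h3
      · rw [div_le_iff₀ hqpos]
        have h1 : (⌊(q0 : ℝ) * (z / k)⌋ : ℝ) ≤ q0 * (z / k) := Int.floor_le _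
        linarith
      · have h1 : (q0 : ℝ) * (z / k) < ⌊(q0 : ℝ) * (z / k)⌋ + 1 := Int.lt_floor_add_one _
        have h2 : (z : ℝ) / k ≤ (⌊(q0 : ℝ) * (z / k)⌋ + 1) / q0 := by
          rw [le_div_iff₀ hqpos]; linarith
        rw [add_div] at h2
        linarith
    obtain ⟨i, hi, hi1, hi2⟩ := grid v.1 hv1
    obtain ⟨j, hj, hj1, hj2⟩ := grid v.2 hv2
    have hstep := hk0 k hkge (i, j) (Finset.mk_mem_product hi hj)
    simp only at hstep
    rw [div_lt_iff₀ hk1] at hstep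
    have coord : ∀ (z : ℤ) (y : ℝ), y ≤ z / k → (z : ℝ) / k ≤ y + η →
        |((z - ⌊(k : ℝ) * y⌋ : ℤ) : ℝ)| ≤ k * η + 1 := by
      intro z y hy1 hy2
      have h1 : (⌊(k : ℝ) * y⌋ : ℝ) ≤ k * y := Int.floor_le _
      have h2 : (k : ℝ) * y < ⌊(k : ℝ) * y⌋ + 1 := Int.lt_floor_add_one _
      rw [le_div_iff₀ hk1] at hy1
      rw [div_le_iff₀ hk1] at hy2
      push_cast
      rw [abs_le]
      constructor
      · have : 0 ≤ (k : ℝ) * η := by positivity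
        nlinarith
      · nlinarith
    have hc1 := coord v.1 _ hi1 hi2
    have hc2 := coord v.2 _ hj1 hj2
    have hsub := hp.sub_le v (fl k ((i : ℝ) / q0, (j : ℝ) / q0))
    have hlip2 := hlip (v - fl k ((i : ℝ) / q0, (j : ℝ) / q0))
    have hl3 : p (v - fl k ((i : ℝ) / q0, (j : ℝ) / q0)) ≤ K * (2 * (k * η + 1)) := by
      refine hlip2.trans (mul_le_mul_of_nonneg_left ?_ hK)
      have e1 : (v - fl k ((i : ℝ) / q0, (j : ℝ) / q0)).1 = v.1 - ⌊(k : ℝ) * ((i : ℝ) / q0)⌋ := rfl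
      have e2 : (v - fl k ((i : ℝ) / q0, (j : ℝ) / q0)).2 = v.2 - ⌊(k : ℝ) * ((j : ℝ) / q0)⌋ := rfl
      rw [e1, e2]
      linarith
    -- comparison of norms
    have hxy : N ((i : ℝ) / q0, (j : ℝ) / q0) ≤
        N (((v.1 : ℝ) / k, (v.2 : ℝ) / k)) + K1 * (2 * η) := by
      have e : (((i : ℝ) / q0, (j : ℝ) / q0) : ℝ × ℝ) = ((v.1 : ℝ) / k, (v.2 : ℝ) / k) +
          ((i : ℝ) / q0 - (v.1 : ℝ) / k, (j : ℝ) / q0 - (v.2 : ℝ) / k) := by
        ext <;> simp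
      have h1 := hNn.add ((v.1 : ℝ) / k, (v.2 : ℝ) / k)
        ((i : ℝ) / q0 - (v.1 : ℝ) / k, (j : ℝ) / q0 - (v.2 : ℝ) / k)
      rw [← e] at h1
      have h2 := hNlip ((i : ℝ) / q0 - (v.1 : ℝ) / k, (j : ℝ) / q0 - (v.2 : ℝ) / k)
      have h3 : |(i : ℝ) / q0 - (v.1 : ℝ) / k| ≤ η := by
        rw [abs_le]; constructor <;> linarith
      have h4 : |(j : ℝ) / q0 - (v.2 : ℝ) / k| ≤ η := by
        rw [abs_le]; constructor <;> linarith
      have h5 : K1 * (|(i : ℝ) / q0 - (v.1 : ℝ) / k| + |(j : ℝ) / q0 - (v.2 : ℝ) / k|) ≤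
          K1 * (2 * η) := by
        apply mul_le_mul_of_nonneg_left _ hK1nn
        linarith
      simp only at h2
      linarith
    have hkN : (k : ℝ) * N (((v.1 : ℝ) / k, (v.2 : ℝ) / k)) = N (cR v) := by
      have h1 := hNn.smul (k : ℝ) ((v.1 : ℝ) / k, (v.2 : ℝ) / k)
      rw [abs_of_pos hk1] at h1
      rw [← h1]
      congr 1
      ext
      · simp only [Prod.smul_mk, smul_eq_mul, cR]
        field_simp
      · simp only [Prod.smul_mk, smul_eq_mul, cR]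
        field_simp
    have h6 : (k : ℝ) * N ((i : ℝ) / q0, (j : ℝ) / q0) ≤ N (cR v) + k * (K1 * (2 * η)) := by
      have := mul_le_mul_of_nonneg_left hxy hk1.le
      rw [mul_add, hkN] at this
      exact this
    have h7 : (k : ℝ) * ε ≤ ε * (|(v.1 : ℝ)| + |(v.2 : ℝ)|) := by
      rw [mul_comm]
      exact mul_le_mul_of_nonneg_left hkle hε.le
    have h8 : (k : ℝ) * ε = k * (K1 * (2 * η)) + k * η + K * (2 * (k * η)) := by
      rw [← hηε]; ring
    have h9 : K * (2 * ((k : ℝ) * η + 1)) = K * (2 * (k * η)) + 2 * K := by ring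
    have h10 : 0 ≤ 2 * K * ((k0 : ℝ) + 1) := by positivity
    have h11 : (N ((i : ℝ) / q0, (j : ℝ) / q0) + η) * k =
        k * N ((i : ℝ) / q0, (j : ℝ) / q0) + k * η := by ring
    linarith

end AutGeo
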