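import Pool.Agent.AutGeo.A.Closed
import Pool.Agent.AutGeo.A.LocFin
import Pool.Agent.AutGeo.A.Graph

set_option autoImplicit false

namespace AutGeo

/-- reversal of a transition (`lam ∘ rotR a`, `-a`) -/
theorem StStep.reverse {N : ℝ × ℝ → ℝ} (hN : IsNorm N) {x y : ℝ × ℤˣ} (hx : |x.1| < N (3, 0))
    (h : StStep N x y) : StStep N (y.1, -y.2) (x.1, -x.2) := by
  sorry

/-- the turn -/
theorem StStep.turn {N : ℝ × ℝ → ℝ} (hN : IsNorm N) (x : ℝ × ℤˣ) (hx : |x.1| < N (3, 0)) :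
    StStep N x (x.1, -x.2) := by
  sorry

/-- A8 (second half): a sequence of `m = 2n` states from `(c,1)` to `(c,-1)`, the first `n` distinct: path of `n` distinct states, turn, reversed path. -/
theorem states_exist (N : ℝ × ℝ → ℝ) (hN : IsNorm N) (c : ℝ) (hc : |c| < N (3, 0)) (n : ℕ) (hn : 1 ≤ n) :
    ∃ x : ℕ → ℝ × ℤˣ, (∀ l, 1 ≤ l → l < 2 * n → StStep N (x l) (x (l + 1))) ∧
      (∀ l, 1 ≤ l → l ≤ 2 * n → |(x l).1| < N (3, 0)) ∧
      (∀ i j, 1 ≤ i → i < j → j ≤ n → x i ≠ x j) ∧ x 1 = (c, 1) ∧ x (2 * n) = (c, -1) := by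
  sorry

end AutGeo
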