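import Pool.Agent.AutGeo.A.SstarRot

set_option autoImplicit false

namespace AutGeo

open Filter Topology

private lemma tf_split (x y : ℝ × ℝ) (s : ℝ) {t : ℝ} (ht : t ≠ 0) :
    s • x + t • y = t • (y + (s / t) • x) := by
  rw [smul_add, smul_smul, mul_div_cancel₀ s ht, add_comm]

private lemma tf_le {N : ℝ × ℝ → ℝ} (hN : IsNorm N) {l x y : ℝ × ℝ} {c : ℝ} (hc : |c| < N x)
    (hlx : dot l x = c) (h1 : ∀ s : ℝ, dot l y ≤ N (y + s • x) - c * s)
    (h2 : ∀ s : ℝ, -(N (y + s • x) + c * s) ≤ dot l y) (s t : ℝ) :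
    dot l (s • x + t • y) ≤ N (s • x + t • y) := by
  have hd : dot l (s • x + t • y) = s * c + t * dot l y := by
    rw [dot_add, dot_smul, dot_smul, hlx]
  rcases lt_trichotomy t 0 with ht | rfl | ht
  · have e := h2 (s / t)
    have e2 : t * (s / t) = s := mul_div_cancel₀ s ht.ne
    rw [hd, tf_split x y s ht.ne, hN.smul, abs_of_neg ht]
    have e3 := mul_le_mul_of_nonpos_left e ht.le
    have e4 : t * -(N (y + (s / t) • x) + c * (s / t)) = -t * N (y + (s / t) • x) - s * c := by
      linear_combination -c * e2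
    rw [e4] at e3
    linarith
  · rw [hd, zero_smul, add_zero, hN.smul]
    have e1 : s * c ≤ |s| * |c| := by rw [← abs_mul]; exact le_abs_self _
    nlinarith [mul_le_mul_of_nonneg_left hc.le (abs_nonneg s)]
  · have e := h1 (s / t)
    have e2 : t * (s / t) = s := mul_div_cancel₀ s ht.ne'
    rw [hd, tf_split x y s ht.ne', hN.smul, abs_of_pos ht]
    have e3 := mul_le_mul_of_nonneg_left e ht.le
    have e4 : t * (N (y + (s / t) • x) - c * (s / t)) = t * N (y + (s / t) • x) - s * c := by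
      linear_combination -c * e2
    rw [e4] at e3
    linarith

private lemma tf_eq {N : ℝ × ℝ → ℝ} (hN : IsNorm N) {l x y : ℝ × ℝ} {c : ℝ} (hc : |c| < N x)
    (hlx : dot l x = c) {s t : ℝ} (h0 : s ≠ 0 ∨ t ≠ 0)
    (h : dot l (s • x + t • y) = N (s • x + t • y)) :
    ∃ r : ℝ, dot l y = N (y + r • x) - c * r ∨ dot l y = -(N (y + r • x) + c * r) := by
  have hd : dot l (s • x + t • y) = s * c + t * dot l y := by
    rw [dot_add, dot_smul, dot_smul, hlx]
  rcases lt_trichotomy t 0 with ht | rfl | ht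
  · refine ⟨s / t, Or.inr ?_⟩
    have e2 : t * (s / t) = s := mul_div_cancel₀ s ht.ne
    rw [hd, tf_split x y s ht.ne, hN.smul, abs_of_neg ht] at h
    have h3 : t * dot l y = t * (-(N (y + (s / t) • x) + c * (s / t))) := by
      linear_combination h + c * e2
    exact mul_left_cancel₀ ht.ne h3
  · exfalso
    have hs : s ≠ 0 := by
      rcases h0 with h0 | h0
      · exact h0
      · exact absurd rfl h0
    rw [hd, zero_smul, add_zero, hN.smul] at h
    have e1 : s * c ≤ |s| * |c| := by rw [← abs_mul]; exact le_abs_self _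
    have e2 := mul_lt_mul_of_pos_left hc (abs_pos.2 hs)
    linarith
  · refine ⟨s / t, Or.inl ?_⟩
    have e2 : t * (s / t) = s := mul_div_cancel₀ s ht.ne'
    rw [hd, tf_split x y s ht.ne', hN.smul, abs_of_pos ht] at h
    have h3 : t * dot l y = t * (N (y + (s / t) • x) - c * (s / t)) := by
      linear_combination h + c * e2
    exact mul_left_cancel₀ ht.ne' h3

private lemma tf_min {N : ℝ × ℝ → ℝ} (hN : IsNorm N) (x y : ℝ × ℝ) {c : ℝ} (hc : |c| < N x) :
    ∃ s₀ : ℝ, ∀ s : ℝ, N (y + s₀ • x) - c * s₀ ≤ N (y + s • x) - c * s := by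
  have hnx : 0 < N x := lt_of_le_of_lt (abs_nonneg c) hc
  have hcont : Continuous fun s : ℝ => N (y + s • x) - c * s := by
    refine Continuous.sub ?_ (continuous_const.mul continuous_id)
    have hL : LipschitzWith (Real.toNNReal (N x)) fun s : ℝ => N (y + s • x) := by
      refine LipschitzWith.of_dist_le_mul fun s r => ?_
      rw [Real.coe_toNNReal _ hnx.le, Real.dist_eq, Real.dist_eq]
      have k1 : ∀ s r : ℝ, N (y + s • x) - N (y + r • x) ≤ N x * |s - r| := by
        intro s r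
        have e : y + s • x = (y + r • x) + (s - r) • x := by
          rw [sub_smul]; abel
        have e1 := hN.add (y + r • x) ((s - r) • x)
        rw [← e, hN.smul] at e1
        linarith
      rw [abs_le]
      constructor
      · have := k1 r s
        rw [abs_sub_comm] at this
        linarith
      · exact k1 s r
    exact hL.continuous
  have hlim : Tendsto (fun s : ℝ => N (y + s • x) - c * s) (cocompact ℝ) atTop := by
    have h1 : Tendsto (fun s : ℝ => (N x - |c|) * ‖s‖ - N y) (cocompact ℝ) atTop := by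
      refine tendsto_atTop_add_const_right _ _ ?_
      exact (tendsto_norm_cocompact_atTop (E := ℝ)).const_mul_atTop (by linarith)
    refine tendsto_atTop_mono (fun s => ?_) h1
    have e1 := hN.add (y + s • x) (-y)
    have e : y + s • x + -y = s • x := by abel
    rw [e, hN.smul, hN.neg] at e1
    have e2 : c * s ≤ |c| * |s| := by rw [← abs_mul]; exact le_abs_self _
    rw [Real.norm_eq_abs]
    linarith
  obtain ⟨s₀, h⟩ := hcont.exists_forall_le hlim
  exact ⟨s₀, h⟩

/-- A5. Exactly two functionals of the dual unit sphere have a given value `c`, `|c| < N x`, at `x`.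
Proof: `y := (-x.2, x.1)`; `x, y` is a basis and a functional is determined by its values `c` at `x` and `b` at `y`.
Let `P := inf_s (N (y + s x) - c s)`, `M := inf_s (N (y + s x) + c s)`; both infima are attained (continuous functions of `s`, tending to infinity as
`N (y + s x) ≥ |s| N x - N y` and `|c| < N x`). The functional `(c, b)` is `≤ N` iff `-M ≤ b ≤ P`
(test on `t y + s x`, `t > 0` gives `b ≤ P`, `t < 0` gives `b ≥ -M`, `t = 0` is `|c| ≤ N x`), and it is in `Sstar` iff moreover `b = P` or `b = -M`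
(equality at a vector `t y + s x` with `t = 0` is impossible since `|c| < N x`; at the attained infimum there is equality).
`P > -M`: with `P = N (y + s x) - c s`, `M = N (y + r x) + c r`: `P + M ≥ N ((s - r) x) - c (s - r) > 0` if `s ≠ r`, and `P + M = 2 N (y + s x) > 0` if `s = r`
(`N (y + s x) + N (y + r x) ≥ N ((s-r) x)`). -/
theorem two_functionals (N : ℝ × ℝ → ℝ) (hN : IsNorm N) (x : ℝ × ℝ) (hx : x ≠ 0) (c : ℝ) (hc : |c| < N x) :
    ∃ l₁ l₂ : ℝ × ℝ, l₁ ≠ l₂ ∧ {l | l ∈ Sstar N ∧ dot l x = c} = {l₁, l₂} := by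
  obtain ⟨x₁, x₂⟩ := x
  have hD : 0 < x₁ ^ 2 + x₂ ^ 2 := by
    by_contra hcon
    have h1 : x₁ = 0 := by nlinarith [sq_nonneg x₁, sq_nonneg x₂]
    have h2 : x₂ = 0 := by nlinarith [sq_nonneg x₁, sq_nonneg x₂]
    exact hx (by rw [h1, h2]; rfl)
  set x : ℝ × ℝ := (x₁, x₂) with hxd
  set y : ℝ × ℝ := (-x₂, x₁) with hyd
  have hdec : ∀ z : ℝ × ℝ, ∃ s t : ℝ, z = s • x + t • y := by
    intro z
    refine ⟨(z.1 * x₁ + z.2 * x₂) / (x₁ ^ 2 + x₂ ^ 2),
      (z.2 * x₁ - z.1 * x₂) / (x₁ ^ 2 + x₂ ^ 2), ?_⟩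
    ext
    · simp only [hxd, hyd, Prod.fst_add, Prod.smul_fst, smul_eq_mul]
      field_simp
      ring
    · simp only [hxd, hyd, Prod.snd_add, Prod.smul_snd, smul_eq_mul]
      field_simp
      ring
  have huniq : ∀ l l' : ℝ × ℝ, dot l x = dot l' x → dot l y = dot l' y → l = l' := by
    intro l l' h1 h2
    simp only [dot, hxd, hyd] at h1 h2
    have e1 : (x₁ ^ 2 + x₂ ^ 2) * l.1 = (x₁ ^ 2 + x₂ ^ 2) * l'.1 := by
      linear_combination x₁ * h1 - x₂ * h2
    have e2 : (x₁ ^ 2 + x₂ ^ 2) * l.2 = (x₁ ^ 2 + x₂ ^ 2) * l'.2 := by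
      linear_combination x₂ * h1 + x₁ * h2
    exact Prod.ext (mul_left_cancel₀ hD.ne' e1) (mul_left_cancel₀ hD.ne' e2)
  have hexi : ∀ b : ℝ, ∃ l : ℝ × ℝ, dot l x = c ∧ dot l y = b := by
    intro b
    refine ⟨((c * x₁ - b * x₂) / (x₁ ^ 2 + x₂ ^ 2), (c * x₂ + b * x₁) / (x₁ ^ 2 + x₂ ^ 2)), ?_, ?_⟩
    · simp only [dot, hxd]
      field_simp
      ring
    · simp only [dot, hyd]
      field_simp
      ring
  have hne : ∀ s : ℝ, y + s • x ≠ 0 := by
    intro s h
    have h1 := congrArg Prod.fst h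
    have h2 := congrArg Prod.snd h
    simp only [hxd, hyd, Prod.fst_add, Prod.snd_add, Prod.smul_fst, Prod.smul_snd, smul_eq_mul,
      Prod.fst_zero, Prod.snd_zero] at h1 h2
    have : x₁ ^ 2 + x₂ ^ 2 = 0 := by linear_combination x₁ * h2 - x₂ * h1
    exact hD.ne' this
  obtain ⟨s₀, hs₀⟩ := tf_min hN x y hc
  obtain ⟨r₀, hr₀⟩ := tf_min hN x y (c := -c) (by rwa [abs_neg])
  have hPM : 0 < (N (y + s₀ • x) - c * s₀) + (N (y + r₀ • x) + c * r₀) := by
    by_cases h : s₀ = r₀
    · subst h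
      have := hN.pos _ (hne s₀)
      linarith
    · have e1 := hN.add (y + s₀ • x) (-(y + r₀ • x))
      have e : y + s₀ • x + -(y + r₀ • x) = (s₀ - r₀) • x := by
        rw [sub_smul]; abel
      rw [e, hN.smul, hN.neg] at e1
      have e2 : c * (s₀ - r₀) ≤ |c| * |s₀ - r₀| := by rw [← abs_mul]; exact le_abs_self _
      have e3 := mul_lt_mul_of_pos_right hc (abs_pos.2 (sub_ne_zero.2 h))
      linarith
  obtain ⟨l₁, hl₁x, hl₁y⟩ := hexi (N (y + s₀ • x) - c * s₀)
  obtain ⟨l₂, hl₂x, hl₂y⟩ := hexi (-(N (y + r₀ • x) + c * r₀))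
  have hr' : ∀ s : ℝ, N (y + r₀ • x) + c * r₀ ≤ N (y + s • x) + c * s := by
    intro s
    have := hr₀ s
    linarith
  refine ⟨l₁, l₂, ?_, ?_⟩
  · rintro rfl
    rw [hl₁y] at hl₂y
    linarith
  · ext l
    simp only [Set.mem_insert_iff, Set.mem_singleton_iff]
    change (l ∈ Sstar N ∧ dot l x = c) ↔ _
    constructor
    · rintro ⟨⟨hle, z, hz, hzN⟩, hlx⟩
      have hb1 : dot l y ≤ N (y + s₀ • x) - c * s₀ := by
        have := hle (y + s₀ • x)
        rw [dot_add, dot_smul, hlx] at this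
        linarith
      have hb2 : -(N (y + r₀ • x) + c * r₀) ≤ dot l y := by
        have := hle (-(y + r₀ • x))
        rw [dot_neg, dot_add, dot_smul, hlx, hN.neg] at this
        linarith
      obtain ⟨s, t, rfl⟩ := hdec z
      have h0 : s ≠ 0 ∨ t ≠ 0 := by
        by_contra hcon
        push Not at hcon
        obtain ⟨rfl, rfl⟩ := hcon
        exact hz (by simp)
      obtain ⟨r, hr | hr⟩ := tf_eq hN hc hlx h0 hzN
      · left
        refine huniq _ _ (hlx.trans hl₁x.symm) ?_
        rw [hl₁y]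
        have := hs₀ r
        linarith
      · right
        refine huniq _ _ (hlx.trans hl₂x.symm) ?_
        rw [hl₂y]
        have := hr' r
        linarith
    · rintro (rfl | rfl)
      · refine ⟨⟨fun z => ?_, y + s₀ • x, hne s₀, ?_⟩, hl₁x⟩
        · obtain ⟨s, t, rfl⟩ := hdec z
          refine tf_le hN hc hl₁x (fun s => ?_) (fun s => ?_) s t
          · rw [hl₁y]; exact hs₀ s
          · rw [hl₁y]
            have := hr' s
            linarith
        · rw [dot_add, dot_smul, hl₁x, hl₁y]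
          ring
      · refine ⟨⟨fun z => ?_, -(y + r₀ • x), neg_ne_zero.2 (hne r₀), ?_⟩, hl₂x⟩
        · obtain ⟨s, t, rfl⟩ := hdec z
          refine tf_le hN hc hl₂x (fun s => ?_) (fun s => ?_) s t
          · rw [hl₂y]
            have := hs₀ s
            linarith
          · rw [hl₂y]
            have := hr' s
            linarith
        · rw [dot_neg, dot_add, dot_smul, hl₂x, hl₂y, hN.neg]
          ring

end AutGeo
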